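import Mathlib
import Pool.Agent.Y924.DV.Tab

/-!
Numerical lower bound for the density.
-/

namespace Pool.Agent.Y924.DV

open Finset Filter Topology

/-- The ranges of a table follow each other between `a` and `b`. -/
def Ch : List Ent → ℕ → ℕ → Prop
  | [], a, b => a ≤ b
  | e :: L, a, b => a ≤ e.lo ∧ e.lo < e.hi ∧ Ch L e.hi b

/-- Boolean version. -/
def chB : List Ent → ℕ → ℕ → Bool
  | [], a, b => Nat.ble a b
  | e :: L, a, b => Nat.ble a e.lo && Nat.blt e.lo e.hi && chB L e.hi b

theorem chB_Ch {L : List Ent} {a b : ℕ} (h : chB L a b = true) : Ch L a b := by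
  induction L generalizing a with
  | nil => exact Nat.le_of_ble_eq_true h
  | cons e L ih =>
    rw [chB, Bool.and_eq_true, Bool.and_eq_true] at h
    refine ⟨Nat.le_of_ble_eq_true h.1.1, ?_, ih h.2⟩
    have := h.1.2
    simpa [Nat.blt_eq] using this

theorem Ch.mono {L : List Ent} {a a' b : ℕ} (h : Ch L a b) (ha : a' ≤ a) : Ch L a' b := by
  cases L with
  | nil => exact le_trans ha h
  | cons e L => exact ⟨ha.trans h.1, h.2⟩

theorem Ch.append {L M : List Ent} {a b c : ℕ} (h : Ch L a b) (h' : Ch M b c) :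
    Ch (L ++ M) a c := by
  induction L generalizing a with
  | nil => exact h'.mono h
  | cons e L ih => exact ⟨h.1, h.2.1, ih h.2.2⟩

theorem Ch.chain {L : List Ent} {a b : ℕ} (h : Ch L a b) : Chain L a := by
  induction L generalizing a with
  | nil => trivial
  | cons e L ih => exact ⟨h.1, h.2.1, ih h.2.2⟩

theorem Ch.scale {L : List Ent} {a b : ℕ} (h : Ch L a b) (i : ℕ) :
    Ch (L.map (fun e => e.scale i)) (2 ^ i * a) (2 ^ i * b) := by
  induction L generalizing a with
  | nil => exact Nat.mul_le_mul_left _ h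
  | cons e L ih =>
    refine ⟨Nat.mul_le_mul_left _ h.1, ?_, ih h.2.2⟩
    exact Nat.mul_lt_mul_of_pos_left h.2.1 (by positivity)

theorem sig_append (L M : List Ent) : sig (L ++ M) = sig L + sig M := by
  induction L with
  | nil => simp [sig]
  | cons e L ih => simp only [List.cons_append, sig, ih]; ring

theorem gain_scale (e : Ent) (i : ℕ) : (e.scale i).gain = e.gain := by
  simp [Ent.gain, Ent.scale]

theorem sig_scale (L : List Ent) (i : ℕ) :
    sig (L.map (fun e => e.scale i)) = sig L / 2 ^ i := by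
  induction L with
  | nil => simp [sig]
  | cons e L ih =>
    simp only [List.map_cons, sig, ih, gain_scale]
    simp only [Ent.scale]
    push_cast
    have : (2 : ℝ) ^ i ≠ 0 := by positivity
    have e1 : ∀ x : ℝ, 1 / (2 ^ i * x) = 1 / x / 2 ^ i := by
      intro x
      rw [div_div, mul_comm]
    rw [e1, e1]
    ring

/-- Repeated blocks. -/
def rep (B : List Ent) : ℕ → List Ent
  | 0 => []
  | i + 1 => rep B i ++ B.map (fun e => e.scale i)

theorem rep_valid {B : List Ent} (hB : ∀ e ∈ B, e.Valid) (i : ℕ) : ∀ e ∈ rep B i, e.Valid := by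
  induction i with
  | zero => intro e he; simp [rep] at he
  | succ i ih =>
    intro e he
    rw [rep, List.mem_append, List.mem_map] at he
    rcases he with he | ⟨e', he', rfl⟩
    · exact ih e he
    · exact (hB e' he').scale i

theorem rep_ch {B : List Ent} {a : ℕ} (hB : Ch B a (2 * a)) (i : ℕ) :
    Ch (rep B i) a (2 ^ i * a) := by
  induction i with
  | zero => simp [rep, Ch]
  | succ i ih =>
    rw [rep]
    have := hB.scale i
    have e : 2 ^ (i + 1) * a = 2 ^ i * (2 * a) := by ring
    rw [e]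
    exact ih.append this

theorem sig_rep (B : List Ent) (i : ℕ) : sig (rep B i) = sig B * (2 - 2 / 2 ^ i) := by
  induction i with
  | zero => simp [rep, sig]
  | succ i ih =>
    rw [rep, sig_append, ih, sig_scale]
    have : (2 : ℝ) ^ i ≠ 0 := by positivity
    rw [pow_succ]
    field_simp
    ring

theorem le_limit_rep {A B : List Ent} {a : ℕ} (hA : ∀ e ∈ A, e.Valid) (hB : ∀ e ∈ B, e.Valid)
    (hcA : Ch A 0 a) (hcB : Ch B a (2 * a)) {c : ℝ}
    (hc : Tendsto (fun n : ℕ => (f n : ℝ) / n) atTop (𝓝 c)) :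
    2 / 3 + rho 7 * (sig A + 2 * sig B) ≤ c := by
  have h1 : ∀ i : ℕ, 2 / 3 + rho 7 * (sig A + sig B * (2 - 2 / 2 ^ i)) ≤ c := by
    intro i
    have hv : ∀ e ∈ A ++ rep B i, e.Valid := by
      intro e he
      rw [List.mem_append] at he
      rcases he with he | he
      · exact hA e he
      · exact rep_valid hB i e he
    have := le_limit hv ((hcA.append (rep_ch hcB i)).chain) hc
    rwa [sig_append, sig_rep] at this
  have h2 : Tendsto (fun i : ℕ => 2 / 3 + rho 7 * (sig A + sig B * (2 - 2 / 2 ^ i))) atTop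
      (𝓝 (2 / 3 + rho 7 * (sig A + sig B * (2 - 0)))) := by
    have h3 : Tendsto (fun i : ℕ => (2 : ℝ) / 2 ^ i) atTop (𝓝 0) := by
      have := (tendsto_pow_atTop_nhds_zero_of_lt_one (r := (1 / 2 : ℝ)) (by norm_num)
        (by norm_num)).const_mul 2
      rw [mul_zero] at this
      refine this.congr (fun i => ?_)
      rw [one_div, inv_pow]
      rfl
    exact (((h3.const_sub 2).const_mul (sig B)).const_add (sig A)).const_mul (rho 7)
      |>.const_add (2 / 3)
  have h4 := le_of_tendsto' h2 h1
  have e : sig A + 2 * sig B = sig A + sig B * (2 - 0) := by ring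
  rw [e]
  exact h4

/-- Integer lower bound for `M * sig`. -/
def sn (M : ℕ) : List Ent → ℕ
  | [] => 0
  | e :: L => (e.X.length - e.Z.length) * (M / e.lo - M / e.hi - 1) + sn M L

/-- All gains are nonnegative, and the ranges are proper. -/
def posg (L : List Ent) : Bool :=
  L.all (fun e => Nat.ble e.Z.length e.X.length && Nat.ble 1 e.lo && Nat.blt e.lo e.hi)

theorem sn_le (M : ℕ) {L : List Ent} (h : posg L = true) : (sn M L : ℝ) ≤ M * sig L := by
  induction L with
  | nil => simp [sn, sig]
  | cons e L ih =>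
    rw [posg, List.all_cons, Bool.and_eq_true, Bool.and_eq_true, Bool.and_eq_true] at h
    obtain ⟨⟨⟨h1, h2⟩, h3⟩, h4⟩ := h
    have h1 := Nat.le_of_ble_eq_true h1
    have h2 := Nat.le_of_ble_eq_true h2
    have h3 : e.lo < e.hi := by simpa [Nat.blt_eq] using h3
    have ih := ih h4
    have hlo : (0 : ℝ) < e.lo := by exact_mod_cast h2
    have hhi : (0 : ℝ) < e.hi := by exact_mod_cast (by omega : 0 < e.hi)
    have hg : ((e.X.length - e.Z.length : ℕ) : ℝ) = e.gain := by
      rw [Nat.cast_sub h1]; rfl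
    have hg0 : 0 ≤ e.gain := by rw [← hg]; positivity
    have k1 : ((M / e.hi : ℕ) : ℝ) ≤ M / e.hi := Nat.cast_div_le
    have k2 : (M : ℝ) / e.lo < (M / e.lo : ℕ) + 1 := by
      rw [div_lt_iff₀ hlo]
      have := Nat.lt_mul_div_succ M h2
      have h' : (M : ℝ) < (e.lo : ℝ) * ((M / e.lo : ℕ) + 1) := by exact_mod_cast this
      linarith
    have k3 : (M : ℝ) / e.hi ≤ M / e.lo := by
      apply div_le_div_of_nonneg_left (by positivity) hlo
      exact_mod_cast h3.le
    have k4 : ((M / e.lo - M / e.hi - 1 : ℕ) : ℝ) ≤ M / e.lo - M / e.hi := by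
      rcases Nat.lt_or_ge (M / e.lo) (M / e.hi + 1) with hh | hh
      · have : M / e.lo - M / e.hi - 1 = 0 := by omega
        rw [this, Nat.cast_zero]
        linarith
      · have e1 : M / e.lo - M / e.hi - 1 = M / e.lo - (M / e.hi + 1) := by omega
        rw [e1, Nat.cast_sub hh]
        push_cast
        have k5 : ((M / e.lo : ℕ) : ℝ) ≤ M / e.lo := Nat.cast_div_le
        have k6 : (M : ℝ) / e.hi < (M / e.hi : ℕ) + 1 := by
          rw [div_lt_iff₀ hhi]
          have := Nat.lt_mul_div_succ M (by omega : 0 < e.hi)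
          have h' : (M : ℝ) < (e.hi : ℝ) * ((M / e.hi : ℕ) + 1) := by exact_mod_cast this
          linarith
        linarith
    simp only [sn, sig]
    push_cast
    rw [hg]
    have k7 : e.gain * ((M / e.lo - M / e.hi - 1 : ℕ) : ℝ) ≤
        e.gain * ((M : ℝ) / e.lo - M / e.hi) := mul_le_mul_of_nonneg_left k4 hg0
    have e2 : e.gain * ((M : ℝ) / e.lo - M / e.hi) =
        M * (e.gain * (1 / (e.lo : ℝ) - 1 / (e.hi : ℝ))) := by ring
    rw [mul_add, ← e2]
    exact add_le_add k7 ih

set_option maxRecDepth 100000 in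
theorem okA : tabA.all Ent.ok = true := by decide +kernel

set_option maxRecDepth 100000 in
theorem okB : tabB.all Ent.ok = true := by decide +kernel

set_option maxRecDepth 100000 in
theorem chA : chB tabA 0 12000 = true := by decide +kernel

set_option maxRecDepth 100000 in
theorem chB' : chB tabB 12000 (2 * 12000) = true := by decide +kernel

set_option maxRecDepth 100000 in
theorem pgA : posg tabA = true := by decide +kernel

set_option maxRecDepth 100000 in
theorem pgB : posg tabB = true := by decide +kernel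

set_option maxRecDepth 100000 in
theorem numAB : 23529000000 ≤ sn (10 ^ 12) tabA + 2 * sn (10 ^ 12) tabB := by decide +kernel

theorem primesBelow_seven : Nat.primesBelow 7 = {2, 3, 5} := by decide +kernel

theorem rho_seven : rho 7 = 4 / 15 := by
  rw [rho, primesBelow_seven]
  norm_num

/-- **The numerical lower bound.** -/
theorem lower {c : ℝ} (hc : Tendsto (fun n : ℕ => (f n : ℝ) / n) atTop (𝓝 c)) :
    0.67294 ≤ c := by
  have h1 := le_limit_rep (A := tabA) (B := tabB) (a := 12000)
    (fun e he => Ent.ok_valid (List.all_eq_true.mp okA e he))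
    (fun e he => Ent.ok_valid (List.all_eq_true.mp okB e he))
    (chB_Ch chA) (chB_Ch chB') hc
  rw [rho_seven] at h1
  have h2 := sn_le (10 ^ 12) pgA
  have h3 := sn_le (10 ^ 12) pgB
  have h4 : ((23529000000 : ℕ) : ℝ) ≤
      (sn (10 ^ 12) tabA : ℝ) + 2 * (sn (10 ^ 12) tabB : ℝ) := by
    exact_mod_cast numAB
  push_cast at h2 h3 h4
  have h5 : (23529000000 : ℝ) ≤ 10 ^ 12 * (sig tabA + 2 * sig tabB) := by linarith
  have h6 : (0.023529 : ℝ) ≤ sig tabA + 2 * sig tabB := by
    have : (10 : ℝ) ^ 12 * 0.023529 ≤ 10 ^ 12 * (sig tabA + 2 * sig tabB) := by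
      norm_num at h5 ⊢
      linarith
    exact le_of_mul_le_mul_left this (by positivity)
  linarith
end Pool.Agent.Y924.DV
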