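import Mathlib

/-!
Sets of integers in `[1,n]` in which no element divides two others: fibre decomposition.
-/

namespace Pool.Agent.Y924.DV

open Finset

/-- No element of `A` divides two other elements of `A`. -/
def Admissible (A : Finset ℕ) : Prop :=
  ∀ a ∈ A, ∀ b ∈ A, ∀ c ∈ A, a ≠ b → a ≠ c → b ≠ c → a ∣ b → ¬ a ∣ c

theorem Admissible.subset {A B : Finset ℕ} (h : Admissible B) (hAB : A ⊆ B) : Admissible A :=
  fun a ha b hb c hc => h a (hAB ha) b (hAB hb) c (hAB hc)

/-- Largest cardinality of an admissible subset of `[1,n]` all of whose elements satisfy `p`. -/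
noncomputable def mx (p : ℕ → Prop) (n : ℕ) : ℕ :=
  sSup {k | ∃ A : Finset ℕ, A ⊆ Finset.Icc 1 n ∧ (∀ a ∈ A, p a) ∧ Admissible A ∧ A.card = k}

theorem mx_bdd (p : ℕ → Prop) (n : ℕ) :
    BddAbove {k | ∃ A : Finset ℕ, A ⊆ Finset.Icc 1 n ∧ (∀ a ∈ A, p a) ∧ Admissible A ∧
      A.card = k} := by
  refine ⟨n, ?_⟩
  rintro k ⟨A, hA, _, _, rfl⟩
  calc A.card ≤ (Finset.Icc 1 n).card := Finset.card_le_card hA
    _ = n := by simp

theorem le_mx {p : ℕ → Prop} {n : ℕ} {A : Finset ℕ} (h1 : A ⊆ Finset.Icc 1 n)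
    (h2 : ∀ a ∈ A, p a) (h3 : Admissible A) : A.card ≤ mx p n :=
  le_csSup (mx_bdd p n) ⟨A, h1, h2, h3, rfl⟩

theorem exists_mx (p : ℕ → Prop) (n : ℕ) :
    ∃ A : Finset ℕ, A ⊆ Finset.Icc 1 n ∧ (∀ a ∈ A, p a) ∧ Admissible A ∧ A.card = mx p n := by
  have h : (mx p n) ∈ {k | ∃ A : Finset ℕ, A ⊆ Finset.Icc 1 n ∧ (∀ a ∈ A, p a) ∧
      Admissible A ∧ A.card = k} := by
    apply Nat.sSup_mem _ (mx_bdd p n)
    exact ⟨0, ∅, by simp, by simp, by intro a ha; simp at ha, by simp⟩
  exact h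

theorem mx_le_iff {p : ℕ → Prop} {n k : ℕ} :
    mx p n ≤ k ↔ ∀ A : Finset ℕ, A ⊆ Finset.Icc 1 n → (∀ a ∈ A, p a) → Admissible A →
      A.card ≤ k := by
  constructor
  · intro h A h1 h2 h3
    exact (le_mx h1 h2 h3).trans h
  · intro h
    obtain ⟨A, h1, h2, h3, h4⟩ := exists_mx p n
    rw [← h4]
    exact h A h1 h2 h3

theorem mx_mono (p : ℕ → Prop) : Monotone (mx p) := by
  intro m n hmn
  rw [mx_le_iff]
  intro A h1 h2 h3
  exact le_mx (h1.trans (Finset.Icc_subset_Icc_right hmn)) h2 h3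

theorem mx_zero (p : ℕ → Prop) : mx p 0 = 0 := by
  apply Nat.le_zero.mp
  rw [mx_le_iff]
  intro A h1 _ _
  have : A = ∅ := by
    apply Finset.subset_empty.mp
    simpa using h1
  simp [this]

/-- `v` has no prime factor below `N`. -/
def Rough (N v : ℕ) : Prop := ∀ p, p.Prime → p ∣ v → N ≤ p

theorem Rough.of_dvd {N v w : ℕ} (h : Rough N v) (hw : w ∣ v) : Rough N w :=
  fun p hp hpw => h p hp (hpw.trans hw)

theorem Rough.le {N v : ℕ} (h : Rough N v) (hv : 1 < v) : N ≤ v := by
  obtain ⟨p, hp, hpv⟩ := Nat.exists_prime_and_dvd (by omega : v ≠ 1)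
  exact (h p hp hpv).trans (Nat.le_of_dvd (by omega) hpv)

theorem rough_coprime {N v s : ℕ} (h : Rough N v) (hs : s ∈ Nat.smoothNumbers N) :
    Nat.Coprime v s := by
  apply Nat.Coprime.symm
  rw [Nat.coprime_iff_gcd_eq_one]
  by_contra hne
  obtain ⟨p, hp, hpd⟩ := Nat.exists_prime_and_dvd hne
  have h1 : p ∣ s := hpd.trans (Nat.gcd_dvd_left _ _)
  have h2 : p ∣ v := hpd.trans (Nat.gcd_dvd_right _ _)
  have h3 : p < N := (Nat.mem_smoothNumbers'.mp hs) p hp h1
  have h4 := h p hp h2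
  omega

theorem exists_decomp (N : ℕ) {x : ℕ} (hx : x ≠ 0) :
    ∃ v s, x = v * s ∧ Rough N v ∧ s ∈ Nat.smoothNumbers N ∧ 0 < v ∧ 0 < s := by
  refine ⟨(x.primeFactorsList.filter (fun p => ¬ p < N)).prod,
    (x.primeFactorsList.filter (fun p => p < N)).prod, ?_, ?_, ?_, ?_, ?_⟩
  · conv_lhs => rw [← Nat.prod_primeFactorsList hx]
    rw [mul_comm, ← List.prod_append]
    apply List.Perm.prod_eq
    have := List.filter_append_perm (fun p => decide (p < N)) x.primeFactorsList
    refine (this.symm.trans ?_)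
    have e : (x.primeFactorsList.filter (fun x => !decide (x < N))) =
        (x.primeFactorsList.filter (fun p => decide (¬ p < N))) := by
      apply List.filter_congr
      intro y _
      rcases Nat.lt_or_ge y N with h | h
      · simp [h]
      · simp [h, not_lt.mpr h]
    rw [e]
  · intro p hp hpd
    have := (Prime.dvd_prod_iff hp.prime).mp hpd
    obtain ⟨q, hq, hpq⟩ := this
    rw [List.mem_filter] at hq
    have hqp := Nat.prime_of_mem_primeFactorsList hq.1
    have := (Nat.prime_dvd_prime_iff_eq hp hqp).mp hpq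
    subst this
    simpa using hq.2
  · exact Nat.prod_mem_smoothNumbers x N
  · apply Nat.pos_of_ne_zero
    intro h0
    rw [List.prod_eq_zero_iff] at h0
    rw [List.mem_filter] at h0
    exact (Nat.prime_of_mem_primeFactorsList h0.1).ne_zero rfl
  · apply Nat.pos_of_ne_zero
    intro h0
    rw [List.prod_eq_zero_iff] at h0
    rw [List.mem_filter] at h0
    exact (Nat.prime_of_mem_primeFactorsList h0.1).ne_zero rfl

theorem decomp_dvd {N v s v' s' : ℕ} (hv : Rough N v) (hs : s ∈ Nat.smoothNumbers N)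
    (hv' : Rough N v') (hs' : s' ∈ Nat.smoothNumbers N) (h : v * s ∣ v' * s') :
    v ∣ v' ∧ s ∣ s' := by
  constructor
  · exact (rough_coprime hv hs').dvd_of_dvd_mul_right ((Dvd.intro _ rfl).trans h)
  · exact (rough_coprime hv' hs).symm.dvd_of_dvd_mul_left ((Dvd.intro_left _ rfl).trans h)

theorem decomp_unique {N v s v' s' : ℕ} (hv : Rough N v) (hs : s ∈ Nat.smoothNumbers N)
    (hv' : Rough N v') (hs' : s' ∈ Nat.smoothNumbers N) (h : v * s = v' * s') :
    v = v' ∧ s = s' := by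
  have h1 := decomp_dvd hv hs hv' hs' (by rw [h])
  have h2 := decomp_dvd hv' hs' hv hs (by rw [h])
  exact ⟨Nat.dvd_antisymm h1.1 h2.1, Nat.dvd_antisymm h1.2 h2.2⟩

open Classical in
/-- Rough numbers in `[1,n]`. -/
noncomputable def rgh (N n : ℕ) : Finset ℕ := (Finset.Icc 1 n).filter (Rough N)

theorem mem_rgh {N n v : ℕ} : v ∈ rgh N n ↔ 1 ≤ v ∧ v ≤ n ∧ Rough N v := by
  classical
  simp [rgh, and_assoc]

open Classical in
/-- Smooth numbers in `[1,n]`. -/
noncomputable def smt (N n : ℕ) : Finset ℕ :=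
  (Finset.Icc 1 n).filter (fun s => s ∈ Nat.smoothNumbers N)

theorem mem_smt {N n s : ℕ} : s ∈ smt N n ↔ 1 ≤ s ∧ s ≤ n ∧ s ∈ Nat.smoothNumbers N := by
  classical
  simp [smt, and_assoc]

/-- The smooth version of the extremal function. -/
noncomputable def g (N j : ℕ) : ℕ := mx (fun s => s ∈ Nat.smoothNumbers N) j

/-- The extremal function. -/
noncomputable def f (n : ℕ) : ℕ := mx (fun _ => True) n

theorem admissible_image_mul {v : ℕ} (hv : 0 < v) {B : Finset ℕ}
    (h : Admissible (B.image (v * ·))) : Admissible B := by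
  intro a ha b hb c hc hab hac hbc h1 h2
  refine h (v * a) (Finset.mem_image_of_mem _ ha) (v * b) (Finset.mem_image_of_mem _ hb)
    (v * c) (Finset.mem_image_of_mem _ hc) ?_ ?_ ?_ (Nat.mul_dvd_mul_left _ h1)
    (Nat.mul_dvd_mul_left _ h2)
  · intro h; exact hab (Nat.eq_of_mul_eq_mul_left hv h)
  · intro h; exact hac (Nat.eq_of_mul_eq_mul_left hv h)
  · intro h; exact hbc (Nat.eq_of_mul_eq_mul_left hv h)

/-- Upper bound by the fibres. -/
theorem f_le (N n : ℕ) : f n ≤ ∑ v ∈ rgh N n, g N (n / v) := by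
  classical
  unfold f
  rw [mx_le_iff]
  intro A h1 _ h3
  let B : ℕ → Finset ℕ := fun v => (smt N (n / v)).filter (fun s => v * s ∈ A)
  have hcov : A ⊆ (rgh N n).biUnion (fun v => (B v).image (v * ·)) := by
    intro x hx
    have hx1 := Finset.mem_Icc.mp (h1 hx)
    obtain ⟨v, s, hxe, hv, hs, hv0, hs0⟩ := exists_decomp N (by omega : x ≠ 0)
    rw [Finset.mem_biUnion]
    refine ⟨v, ?_, ?_⟩
    · rw [mem_rgh]
      refine ⟨hv0, ?_, hv⟩
      calc v ≤ v * s := Nat.le_mul_of_pos_right _ hs0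
        _ ≤ n := by omega
    · rw [Finset.mem_image]
      refine ⟨s, ?_, hxe.symm⟩
      rw [Finset.mem_filter, mem_smt]
      refine ⟨⟨hs0, ?_, hs⟩, by rw [← hxe]; exact hx⟩
      rw [Nat.le_div_iff_mul_le hv0]
      rw [mul_comm]
      omega
  calc A.card ≤ ((rgh N n).biUnion (fun v => (B v).image (v * ·))).card :=
        Finset.card_le_card hcov
    _ ≤ ∑ v ∈ rgh N n, ((B v).image (v * ·)).card := Finset.card_biUnion_le
    _ ≤ ∑ v ∈ rgh N n, (B v).card := Finset.sum_le_sum (fun v _ => Finset.card_image_le)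
    _ ≤ ∑ v ∈ rgh N n, g N (n / v) := by
        apply Finset.sum_le_sum
        intro v hv
        rw [mem_rgh] at hv
        apply le_mx
        · intro s hs
          rw [Finset.mem_filter, mem_smt] at hs
          rw [Finset.mem_Icc]
          exact ⟨hs.1.1, hs.1.2.1⟩
        · intro s hs
          rw [Finset.mem_filter, mem_smt] at hs
          exact hs.1.2.2
        · apply admissible_image_mul (by omega : 0 < v)
          apply h3.subset
          intro x hx
          rw [Finset.mem_image] at hx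
          obtain ⟨s, hs, rfl⟩ := hx
          rw [Finset.mem_filter] at hs
          exact hs.2

/-- Lower bound by the fibres. -/
theorem le_f (N n : ℕ) (S : ℕ → Finset ℕ)
    (hS : ∀ j, ∀ s ∈ S j, s ∈ Nat.smoothNumbers N ∧ s ≤ j ∧ j < s * N)
    (hadm : ∀ j, Admissible (S j)) :
    ∑ v ∈ rgh N n, (S (n / v)).card ≤ f n := by
  classical
  have key : ((rgh N n).biUnion (fun v => (S (n / v)).image (v * ·))).card =
      ∑ v ∈ rgh N n, (S (n / v)).card := by
    rw [Finset.card_biUnion]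
    · apply Finset.sum_congr rfl
      intro v hv
      rw [mem_rgh] at hv
      rw [Finset.card_image_of_injective]
      intro a b hab
      exact Nat.eq_of_mul_eq_mul_left (by omega : 0 < v) hab
    · intro v hv w hw hvw
      rw [Function.onFun, Finset.disjoint_left]
      intro x hx hx'
      simp only [Finset.mem_image] at hx hx'
      obtain ⟨s, hs, rfl⟩ := hx
      obtain ⟨t, ht, hte⟩ := hx'
      rw [Finset.mem_coe, mem_rgh] at hv hw
      exact hvw (decomp_unique hw.2.2 (hS _ t ht).1 hv.2.2 (hS _ s hs).1 hte).1.symm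
  rw [← key]
  apply le_mx
  · intro x hx
    rw [Finset.mem_biUnion] at hx
    obtain ⟨v, hv, hx⟩ := hx
    rw [Finset.mem_image] at hx
    obtain ⟨s, hs, rfl⟩ := hx
    rw [mem_rgh] at hv
    have h1 := hS _ s hs
    rw [Finset.mem_Icc]
    have hs0 : 0 < s := Nat.pos_of_ne_zero (Nat.ne_zero_of_mem_smoothNumbers h1.1)
    constructor
    · exact Nat.mul_pos (by omega) hs0
    · calc v * s ≤ v * (n / v) := Nat.mul_le_mul_left _ h1.2.1
        _ ≤ n := Nat.mul_div_le _ _
  · intro _ _; trivial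
  · have fact : ∀ v s v1 s1, v ∈ rgh N n → s ∈ S (n / v) → v1 ∈ rgh N n → s1 ∈ S (n / v1) →
        v * s ∣ v1 * s1 → v1 = v ∧ s ∣ s1 := by
      intro v s v1 s1 hv hs hv1 hs1 hd
      rw [mem_rgh] at hv hv1
      have h1 := hS _ s hs
      have h2 := hS _ s1 hs1
      obtain ⟨hd1, hd2⟩ := decomp_dvd hv.2.2 h1.1 hv1.2.2 h2.1 hd
      refine ⟨?_, hd2⟩
      by_contra hne
      obtain ⟨w, hw⟩ := hd1
      have hw1 : 1 < w := by
        rcases Nat.lt_or_ge 1 w with h | h
        · exact h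
        · exfalso
          interval_cases w
          · simp at hw; omega
          · simp at hw; exact hne hw
      have hwN : N ≤ w := (hv1.2.2.of_dvd ⟨v, by rw [hw, mul_comm]⟩).le hw1
      have hs10 : 0 < s1 := Nat.pos_of_ne_zero (Nat.ne_zero_of_mem_smoothNumbers h2.1)
      have hle : s ≤ s1 := Nat.le_of_dvd hs10 hd2
      have h3 : n < s * N * v := (Nat.div_lt_iff_lt_mul (by omega : 0 < v)).mp h1.2.2
      have h4 : v1 * s1 ≤ n := by
        calc v1 * s1 ≤ v1 * (n / v1) := Nat.mul_le_mul_left _ h2.2.1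
          _ ≤ n := Nat.mul_div_le _ _
      have h5 : s * N * v ≤ v1 * s1 := by
        rw [hw]
        calc s * N * v = v * N * s := by ring
          _ ≤ v * w * s1 := by gcongr
      omega
    intro a ha b hb c hc hab hac hbc h1 h2
    simp only [Finset.mem_biUnion, Finset.mem_image] at ha hb hc
    obtain ⟨v, hv, s, hs, rfl⟩ := ha
    obtain ⟨v1, hv1, s1, hs1, rfl⟩ := hb
    obtain ⟨v2, hv2, s2, hs2, rfl⟩ := hc
    obtain ⟨e1, d1⟩ := fact v s v1 s1 hv hs hv1 hs1 h1
    obtain ⟨e2, d2⟩ := fact v s v2 s2 hv hs hv2 hs2 h2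
    subst e1; subst e2
    refine hadm _ s hs s1 hs1 s2 hs2 ?_ ?_ ?_ d1 d2
    · rintro rfl; exact hab rfl
    · rintro rfl; exact hac rfl
    · rintro rfl; exact hbc rfl

/-- Every integer of `[1,n]` lies in exactly one fibre. -/
theorem sum_smt (N n : ℕ) : ∑ v ∈ rgh N n, (smt N (n / v)).card = n := by
  classical
  have key : ((rgh N n).biUnion (fun v => (smt N (n / v)).image (v * ·))).card =
      ∑ v ∈ rgh N n, (smt N (n / v)).card := by
    rw [Finset.card_biUnion]
    · apply Finset.sum_congr rfl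
      intro v hv
      rw [mem_rgh] at hv
      rw [Finset.card_image_of_injective]
      intro a b hab
      exact Nat.eq_of_mul_eq_mul_left (by omega : 0 < v) hab
    · intro v hv w hw hvw
      rw [Function.onFun, Finset.disjoint_left]
      intro x hx hx'
      simp only [Finset.mem_image] at hx hx'
      obtain ⟨s, hs, rfl⟩ := hx
      obtain ⟨t, ht, hte⟩ := hx'
      rw [Finset.mem_coe, mem_rgh] at hv hw
      rw [mem_smt] at hs ht
      exact hvw (decomp_unique hw.2.2 ht.2.2 hv.2.2 hs.2.2 hte).1.symm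
  rw [← key]
  have : (rgh N n).biUnion (fun v => (smt N (n / v)).image (v * ·)) = Finset.Icc 1 n := by
    ext x
    simp only [Finset.mem_biUnion, Finset.mem_image, Finset.mem_Icc]
    constructor
    · rintro ⟨v, hv, s, hs, rfl⟩
      rw [mem_rgh] at hv
      rw [mem_smt] at hs
      refine ⟨Nat.mul_pos (by omega) (by omega), ?_⟩
      calc v * s ≤ v * (n / v) := Nat.mul_le_mul_left _ hs.2.1
        _ ≤ n := Nat.mul_div_le _ _
    · rintro ⟨hx1, hx2⟩
      obtain ⟨v, s, hxe, hv, hs, hv0, hs0⟩ := exists_decomp N (by omega : x ≠ 0)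
      refine ⟨v, ?_, s, ?_, hxe.symm⟩
      · rw [mem_rgh]
        refine ⟨hv0, ?_, hv⟩
        calc v ≤ v * s := Nat.le_mul_of_pos_right _ hs0
          _ ≤ n := by omega
      · rw [mem_smt]
        refine ⟨hs0, ?_, hs⟩
        rw [Nat.le_div_iff_mul_le hv0, mul_comm]
        omega
  rw [this]
  simp

theorem sum_smt_div (N n k : ℕ) :
    ∑ v ∈ rgh N n, (smt N (n / v / k)).card = n / k := by
  classical
  have h1 : ∀ v, n / v / k = n / k / v := by
    intro v; rw [Nat.div_div_eq_div_mul, Nat.div_div_eq_div_mul, mul_comm]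
  simp_rw [h1]
  conv_rhs => rw [← sum_smt N (n / k)]
  symm
  apply Finset.sum_subset
  · intro v hv
    rw [mem_rgh] at hv ⊢
    exact ⟨hv.1, hv.2.1.trans (Nat.div_le_self _ _), hv.2.2⟩
  · intro v hv hv'
    rw [mem_rgh] at hv hv'
    have : n / k < v := by
      by_contra hh
      exact hv' ⟨hv.1, by omega, hv.2.2⟩
    rw [Nat.div_eq_of_lt this]
    simp [smt]

theorem card_le_card_smt {N j : ℕ} {A : Finset ℕ} (h1 : A ⊆ Finset.Icc 1 j)
    (h2 : ∀ a ∈ A, a ∈ Nat.smoothNumbers N) : A.card ≤ (smt N j).card := by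
  apply Finset.card_le_card
  intro a ha
  rw [mem_smt]
  have := Finset.mem_Icc.mp (h1 ha)
  exact ⟨this.1, this.2, h2 a ha⟩

/-- Lower bound by the fibres with the loss `n / N`. -/
theorem sum_g_le {N : ℕ} (hN : 0 < N) (n : ℕ) : ∑ v ∈ rgh N n, g N (n / v) ≤ f n + n / N := by
  classical
  choose B hB1 hB2 hB3 hB4 using fun j => exists_mx (fun s => s ∈ Nat.smoothNumbers N) j
  have h := le_f N n (fun j => (B j).filter (fun s => j < s * N)) (by
    intro j s hs
    rw [Finset.mem_filter] at hs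
    exact ⟨hB2 j s hs.1, (Finset.mem_Icc.mp (hB1 j hs.1)).2, hs.2⟩) (by
    intro j
    exact (hB3 j).subset (Finset.filter_subset _ _))
  have h2 : ∀ j, g N j ≤ ((B j).filter (fun s => j < s * N)).card + (smt N (j / N)).card := by
    intro j
    have e : g N j = (B j).card := (hB4 j).symm
    rw [e, ← Finset.card_filter_add_card_filter_not (s := B j) (fun s => j < s * N)]
    apply Nat.add_le_add_left
    apply Finset.card_le_card
    intro s hs
    rw [Finset.mem_filter] at hs
    rw [mem_smt]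
    have h3 := Finset.mem_Icc.mp (hB1 j hs.1)
    refine ⟨h3.1, ?_, hB2 j s hs.1⟩
    rw [Nat.le_div_iff_mul_le hN]
    omega
  calc ∑ v ∈ rgh N n, g N (n / v)
      ≤ ∑ v ∈ rgh N n, (((B (n / v)).filter (fun s => n / v < s * N)).card +
          (smt N (n / v / N)).card) := Finset.sum_le_sum (fun v _ => h2 _)
    _ = ∑ v ∈ rgh N n, ((B (n / v)).filter (fun s => n / v < s * N)).card + n / N := by
        rw [Finset.sum_add_distrib, sum_smt_div]
    _ ≤ f n + n / N := Nat.add_le_add_right h _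

end Pool.Agent.Y924.DV
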