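import Mathlib
import Pool.Agent.Y924.DV.Core

/-!
Asymptotics of sums over rough numbers.
-/

namespace Pool.Agent.Y924.DV

open Finset Filter Topology

/-- Density of the integers without prime factor below `N`. -/
noncomputable def rho (N : ℕ) : ℝ := ∏ p ∈ Nat.primesBelow N, (1 - 1 / (p : ℝ))

/-- Product of the primes below `N`. -/
def PP (N : ℕ) : ℕ := ∏ p ∈ Nat.primesBelow N, p

theorem PP_pos (N : ℕ) : 0 < PP N :=
  Finset.prod_pos (fun _ hp => (Nat.prime_of_mem_primesBelow hp).pos)

theorem rough_iff (N v : ℕ) : Rough N v ↔ (PP N).Coprime v := by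
  constructor
  · intro h
    unfold PP
    apply Nat.Coprime.prod_left
    intro p hp
    have hpp := Nat.prime_of_mem_primesBelow hp
    have hlt := Nat.lt_of_mem_primesBelow hp
    rw [hpp.coprime_iff_not_dvd]
    intro hd
    have := h p hpp hd
    omega
  · intro h p hp hpv
    by_contra hlt
    push Not at hlt
    have h1 : p ∣ PP N := Finset.dvd_prod_of_mem _ (Nat.mem_primesBelow.mpr ⟨hlt, hp⟩)
    have := Nat.dvd_gcd h1 hpv
    rw [Nat.Coprime] at h
    rw [h] at this
    exact hp.one_lt.ne' (Nat.dvd_one.mp this)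

theorem totient_eq (N : ℕ) : ((PP N).totient : ℝ) = rho N * PP N := by
  have h := Nat.totient_eq_mul_prod_factors (PP N)
  have h2 : (PP N).primeFactors = Nat.primesBelow N :=
    Nat.primeFactors_prod (fun p hp => Nat.prime_of_mem_primesBelow hp)
  rw [h2] at h
  have h3 : (((PP N).totient : ℚ) : ℝ) = ((PP N : ℚ) * ∏ p ∈ Nat.primesBelow N, (1 - (p : ℚ)⁻¹) : ℚ) := by
    rw [h]
  push_cast at h3
  rw [h3, rho, mul_comm]
  simp

theorem count_blocks (P q : ℕ) :
    ((Finset.Ico 0 (P * q)).filter (fun v => P.Coprime v)).card = q * P.totient := by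
  induction q with
  | zero => simp
  | succ q ih =>
    have h1 : Finset.Ico 0 (P * (q + 1)) = Finset.Ico 0 (P * q) ∪ Finset.Ico (P * q) (P * q + P) := by
      rw [Finset.Ico_union_Ico_eq_Ico (by omega) (by omega)]
      ring_nf
    rw [h1, Finset.filter_union, Finset.card_union_of_disjoint, ih,
      Nat.filter_coprime_Ico_eq_totient]
    · ring
    · apply Finset.disjoint_filter_filter
      exact Finset.Ico_disjoint_Ico_consecutive _ _ _

theorem count_bound (N m : ℕ) :
    |((rgh N m).card : ℝ) - rho N * m| ≤ 2 * PP N + 2 := by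
  classical
  set P := PP N with hP
  have hP0 : 0 < P := PP_pos N
  set q := m / P with hq
  have hmq1 : P * q ≤ m := Nat.mul_div_le _ _
  have hmq2 : m < P * (q + 1) := by
    have := Nat.lt_mul_div_succ m hP0
    simpa [hq] using this
  have hrg : rgh N m = (Finset.Icc 1 m).filter (fun v => P.Coprime v) := by
    unfold rgh
    apply Finset.filter_congr
    intro v _
    exact rough_iff N v
  have hup : (rgh N m).card ≤ (q + 1) * P.totient := by
    rw [hrg, ← count_blocks]
    apply Finset.card_le_card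
    apply Finset.filter_subset_filter
    intro v hv
    rw [Finset.mem_Icc] at hv
    rw [Finset.mem_Ico]
    omega
  have hlo : q * P.totient ≤ (rgh N m).card + 1 := by
    rw [hrg, ← count_blocks]
    have : (Finset.Ico 0 (P * q)).filter (fun v => P.Coprime v) ⊆
        insert 0 ((Finset.Icc 1 m).filter (fun v => P.Coprime v)) := by
      intro v hv
      rw [Finset.mem_filter, Finset.mem_Ico] at hv
      rw [Finset.mem_insert, Finset.mem_filter, Finset.mem_Icc]
      rcases Nat.eq_zero_or_pos v with h | h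
      · left; exact h
      · right; exact ⟨⟨h, by omega⟩, hv.2⟩
    exact (Finset.card_le_card this).trans (Finset.card_insert_le _ _)
  have htot : (P.totient : ℝ) = rho N * P := totient_eq N
  have htle : (P.totient : ℝ) ≤ P := by exact_mod_cast Nat.totient_le P
  have ht0 : (0 : ℝ) ≤ P.totient := by positivity
  have hPr : (0 : ℝ) < P := by exact_mod_cast hP0
  have hrho0 : 0 ≤ rho N := by
    by_contra h
    push Not at h
    have : rho N * P < 0 := mul_neg_of_neg_of_pos h hPr
    linarith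
  have hup' : ((rgh N m).card : ℝ) ≤ (q + 1) * P.totient := by exact_mod_cast hup
  have hlo' : (q : ℝ) * P.totient ≤ (rgh N m).card + 1 := by exact_mod_cast hlo
  have hm1 : (P : ℝ) * q ≤ m := by exact_mod_cast hmq1
  have hm2 : (m : ℝ) ≤ P * (q + 1) := by exact_mod_cast hmq2.le
  have e1 : rho N * (P * q) ≤ rho N * m := mul_le_mul_of_nonneg_left hm1 hrho0
  have e2 : rho N * m ≤ rho N * (P * (q + 1)) := mul_le_mul_of_nonneg_left hm2 hrho0
  have e3 : rho N * (P * q) = q * P.totient := by rw [htot]; ring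
  have e4 : rho N * (P * (q + 1)) = q * P.totient + P.totient := by rw [htot]; ring
  rw [abs_le]
  constructor
  · linarith
  · have : ((q : ℝ) + 1) * P.totient = q * P.totient + P.totient := by ring
    linarith

theorem rho_nonneg (N : ℕ) : 0 ≤ rho N := by
  apply Finset.prod_nonneg
  intro p hp
  have hpp := Nat.prime_of_mem_primesBelow hp
  have : (1 : ℝ) / p ≤ 1 := by
    rw [div_le_one (by exact_mod_cast hpp.pos)]
    exact_mod_cast hpp.one_lt.le
  linarith

theorem rho_le_one (N : ℕ) : rho N ≤ 1 := by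
  apply Finset.prod_le_one
  · intro p hp
    have hpp := Nat.prime_of_mem_primesBelow hp
    have : (1 : ℝ) / p ≤ 1 := by
      rw [div_le_one (by exact_mod_cast hpp.pos)]
      exact_mod_cast hpp.one_lt.le
    linarith
  · intro p hp
    have : (0 : ℝ) ≤ 1 / p := by positivity
    linarith

theorem rgh_card_le (N m : ℕ) : (rgh N m).card ≤ m := by
  classical
  calc (rgh N m).card ≤ (Finset.Icc 1 m).card := Finset.card_filter_le _ _
    _ = m := by simp

/-- `R(n/t)/n → ρ/t`. -/
theorem tendsto_rgh (N t : ℕ) (ht : 0 < t) :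
    Tendsto (fun n : ℕ => ((rgh N (n / t)).card : ℝ) / n) atTop (𝓝 (rho N / t)) := by
  have hbound : ∀ n : ℕ, 0 < n → |((rgh N (n / t)).card : ℝ) / n - rho N / t| ≤
      (2 * PP N + 3) / n := by
    intro n hn
    have hn' : (0 : ℝ) < n := by exact_mod_cast hn
    have ht' : (0 : ℝ) < t := by exact_mod_cast ht
    have h1 := count_bound N (n / t)
    have h2 : ((n / t : ℕ) : ℝ) ≤ n / t := Nat.cast_div_le
    have h3 : (n : ℝ) / t - 1 ≤ ((n / t : ℕ) : ℝ) := by
      have := Nat.lt_mul_div_succ n ht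
      have h4 : (n : ℝ) < t * (((n / t : ℕ) : ℝ) + 1) := by exact_mod_cast this
      have h5 : (n : ℝ) / t < ((n / t : ℕ) : ℝ) + 1 := by
        rw [div_lt_iff₀ ht']; linarith
      linarith
    have hr0 := rho_nonneg N
    have hr1 := rho_le_one N
    have e : ((rgh N (n / t)).card : ℝ) / n - rho N / t =
        (((rgh N (n / t)).card : ℝ) - rho N * (n / t)) / n := by
      field_simp
    rw [e, abs_div, abs_of_pos hn']
    apply div_le_div_of_nonneg_right _ hn'.le
    rw [abs_le] at h1 ⊢
    have h6 : rho N * ((n / t : ℕ) : ℝ) ≤ rho N * (n / t) := mul_le_mul_of_nonneg_left h2 hr0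
    have h7 : rho N * (n / t) - 1 ≤ rho N * ((n / t : ℕ) : ℝ) := by
      have := mul_le_mul_of_nonneg_left h3 hr0
      nlinarith
    constructor
    · linarith [h1.1]
    · linarith [h1.2]
  rw [tendsto_iff_norm_sub_tendsto_zero]
  have hz : Tendsto (fun n : ℕ => ((2 * PP N + 3 : ℝ)) / n) atTop (𝓝 0) :=
    tendsto_const_div_atTop_nhds_zero_nat _
  refine squeeze_zero' (Eventually.of_forall (fun n => norm_nonneg _)) ?_ hz
  filter_upwards [eventually_gt_atTop 0] with n hn
  rw [Real.norm_eq_abs]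
  exact hbound n hn

theorem sum_swap (N n : ℕ) (W : ℕ → ℝ) (hW : W 0 = 0) :
    ∑ v ∈ rgh N n, W (n / v) =
      ∑' t : ℕ, (W (t + 1) - W t) * ((rgh N (n / (t + 1))).card : ℝ) := by
  classical
  have h1 : ∀ t, t ∉ Finset.range n → (W (t + 1) - W t) * ((rgh N (n / (t + 1))).card : ℝ) = 0 := by
    intro t ht
    rw [Finset.mem_range] at ht
    have : n / (t + 1) = 0 := Nat.div_eq_of_lt (by omega)
    rw [this]
    have h0 : (rgh N 0).card = 0 := by simp [rgh]
    rw [h0]; simp
  rw [tsum_eq_sum h1]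
  have h2 : ∀ v ∈ rgh N n, W (n / v) =
      ∑ t ∈ Finset.range n, if t + 1 ≤ n / v then W (t + 1) - W t else 0 := by
    intro v hv
    rw [← Finset.sum_filter]
    have h3 : (Finset.range n).filter (fun t => t + 1 ≤ n / v) = Finset.range (n / v) := by
      ext t
      simp only [Finset.mem_filter, Finset.mem_range]
      have := Nat.div_le_self n v
      omega
    rw [h3, Finset.sum_range_sub, hW]
    simp
  rw [Finset.sum_congr rfl h2, Finset.sum_comm]
  apply Finset.sum_congr rfl
  intro t _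
  rw [← Finset.sum_filter, Finset.sum_const, nsmul_eq_mul, mul_comm]
  congr 2
  apply congrArg
  ext v
  simp only [Finset.mem_filter, mem_rgh]
  constructor
  · rintro ⟨⟨h1, h2, h3⟩, h4⟩
    refine ⟨h1, ?_, h3⟩
    rw [Nat.le_div_iff_mul_le (by omega)] at h4 ⊢
    rw [mul_comm]; exact h4
  · rintro ⟨h1, h2, h3⟩
    rw [Nat.le_div_iff_mul_le (by omega)] at h2
    refine ⟨⟨h1, ?_, h3⟩, ?_⟩
    · nlinarith
    · rw [Nat.le_div_iff_mul_le (by omega), mul_comm]; exact h2

theorem tendsto_sum_W (N : ℕ) (W : ℕ → ℝ) (hW : W 0 = 0)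
    (hs : Summable (fun t : ℕ => |W (t + 1) - W t| / (t + 1))) :
    Tendsto (fun n : ℕ => (∑ v ∈ rgh N n, W (n / v)) / n) atTop
      (𝓝 (rho N * ∑' t : ℕ, (W (t + 1) - W t) / (t + 1))) := by
  have e : ∀ n : ℕ, (∑ v ∈ rgh N n, W (n / v)) / n =
      ∑' t : ℕ, (W (t + 1) - W t) * (((rgh N (n / (t + 1))).card : ℝ) / n) := by
    intro n
    rw [sum_swap N n W hW, ← tsum_div_const]
    apply tsum_congr
    intro t
    ring
  simp_rw [e]
  have e2 : rho N * ∑' t : ℕ, (W (t + 1) - W t) / (t + 1) =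
      ∑' t : ℕ, (W (t + 1) - W t) * (rho N / ((t + 1 : ℕ) : ℝ)) := by
    rw [← tsum_mul_left]
    apply tsum_congr
    intro t
    push_cast
    ring
  rw [e2]
  apply tendsto_tsum_of_dominated_convergence hs
  · intro t
    exact (tendsto_rgh N (t + 1) (by omega)).const_mul _
  · filter_upwards [eventually_gt_atTop 0] with n hn t
    have hn' : (0 : ℝ) < n := by exact_mod_cast hn
    rw [norm_mul, Real.norm_eq_abs, Real.norm_eq_abs]
    have h1 : ((rgh N (n / (t + 1))).card : ℝ) ≤ n / (t + 1) := by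
      calc ((rgh N (n / (t + 1))).card : ℝ) ≤ ((n / (t + 1) : ℕ) : ℝ) := by
            exact_mod_cast rgh_card_le N _
        _ ≤ (n : ℝ) / ((t + 1 : ℕ) : ℝ) := Nat.cast_div_le
        _ = n / (t + 1) := by push_cast; ring
    have h2 : |((rgh N (n / (t + 1))).card : ℝ) / n| ≤ 1 / (t + 1) := by
      rw [abs_of_nonneg (by positivity), div_le_iff₀ hn']
      calc ((rgh N (n / (t + 1))).card : ℝ) ≤ n / (t + 1) := h1
        _ = 1 / (t + 1) * n := by ring
    calc |W (t + 1) - W t| * |((rgh N (n / (t + 1))).card : ℝ) / n|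
        ≤ |W (t + 1) - W t| * (1 / (t + 1)) := mul_le_mul_of_nonneg_left h2 (abs_nonneg _)
      _ = |W (t + 1) - W t| / (t + 1) := by ring

theorem abel_partial (W : ℕ → ℝ) (hW : W 0 = 0) (m : ℕ) :
    ∑ t ∈ Finset.range m, (W (t + 1) - W t) / ((t : ℝ) + 1) =
      ∑ j ∈ Finset.range m, W j / ((j : ℝ) * (j + 1)) + W m / m := by
  induction m with
  | zero => simp
  | succ m ih =>
    rw [Finset.sum_range_succ, Finset.sum_range_succ, ih]
    rcases Nat.eq_zero_or_pos m with h | h
    · subst h; simp [hW]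
    · have hm : (m : ℝ) ≠ 0 := by positivity
      have hm1 : (m : ℝ) + 1 ≠ 0 := by positivity
      push_cast
      field_simp
      ring

/-- Abel summation for monotone `W`. -/
theorem abel (W : ℕ → ℝ) (hW : W 0 = 0) (hm : Monotone W)
    (hs : Summable (fun t : ℕ => (W (t + 1) - W t) / ((t : ℝ) + 1))) :
    Summable (fun j : ℕ => W j / ((j : ℝ) * (j + 1))) ∧
      ∑' t : ℕ, (W (t + 1) - W t) / ((t : ℝ) + 1) = ∑' j : ℕ, W j / ((j : ℝ) * (j + 1)) := by
  have hW0 : ∀ j, 0 ≤ W j := fun j => by rw [← hW]; exact hm (Nat.zero_le j)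
  have hterm : ∀ j : ℕ, 0 ≤ W j / ((j : ℝ) * (j + 1)) := fun j => by
    have := hW0 j; positivity
  have hdterm : ∀ t : ℕ, 0 ≤ (W (t + 1) - W t) / ((t : ℝ) + 1) := fun t => by
    have : 0 ≤ W (t + 1) - W t := sub_nonneg.mpr (hm (Nat.le_succ t))
    positivity
  have hsum : Summable (fun j : ℕ => W j / ((j : ℝ) * (j + 1))) := by
    apply summable_of_sum_range_le hterm (c := ∑' t : ℕ, (W (t + 1) - W t) / ((t : ℝ) + 1))
    intro m
    have h1 := abel_partial W hW m
    have h2 : ∑ t ∈ Finset.range m, (W (t + 1) - W t) / ((t : ℝ) + 1) ≤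
        ∑' t : ℕ, (W (t + 1) - W t) / ((t : ℝ) + 1) :=
      hs.sum_le_tsum _ (fun t _ => hdterm t)
    have h3 : 0 ≤ W m / m := by have := hW0 m; positivity
    linarith
  refine ⟨hsum, ?_⟩
  -- W m / m → 0
  have hA := hsum.hasSum.tendsto_sum_nat
  have hA2 : Tendsto (fun m : ℕ => ∑ j ∈ Finset.range (2 * m), W j / ((j : ℝ) * (j + 1))) atTop
      (𝓝 (∑' j : ℕ, W j / ((j : ℝ) * (j + 1)))) :=
    hA.comp (tendsto_id.const_mul_atTop' (by norm_num : 0 < 2))
  have hdiff : Tendsto (fun m : ℕ => 2 * (∑ j ∈ Finset.range (2 * m), W j / ((j : ℝ) * (j + 1)) -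
      ∑ j ∈ Finset.range m, W j / ((j : ℝ) * (j + 1)))) atTop (𝓝 0) := by
    have := (hA2.sub hA).const_mul 2
    simpa using this
  have hle : ∀ m : ℕ, W m / m ≤ 2 * (∑ j ∈ Finset.range (2 * m), W j / ((j : ℝ) * (j + 1)) -
      ∑ j ∈ Finset.range m, W j / ((j : ℝ) * (j + 1))) := by
    intro m
    rcases Nat.eq_zero_or_pos m with h | h
    · subst h; simp
    · have hmr : (0 : ℝ) < m := by exact_mod_cast h
      have e1 : ∑ j ∈ Finset.range (2 * m), W j / ((j : ℝ) * (j + 1)) -
          ∑ j ∈ Finset.range m, W j / ((j : ℝ) * (j + 1)) =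
          ∑ j ∈ Finset.Ico m (2 * m), W j / ((j : ℝ) * (j + 1)) := by
        rw [Finset.sum_Ico_eq_sub _ (by omega)]
      have e2 : ∀ M, m ≤ M → ∑ j ∈ Finset.Ico m M, W m / ((j : ℝ) * (j + 1)) =
          W m * (1 / m - 1 / M) := by
        intro M hM
        induction M, hM using Nat.le_induction with
        | base => simp
        | succ M hM ih =>
          rw [Finset.sum_Ico_succ_top hM, ih]
          have hMr : (0 : ℝ) < M := by
            have : 0 < M := by omega
            exact_mod_cast this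
          push_cast
          field_simp
          ring
      have e3 : W m * (1 / m - 1 / ((2 * m : ℕ) : ℝ)) ≤
          ∑ j ∈ Finset.Ico m (2 * m), W j / ((j : ℝ) * (j + 1)) := by
        rw [← e2 (2 * m) (by omega)]
        apply Finset.sum_le_sum
        intro j hj
        rw [Finset.mem_Ico] at hj
        have := hm hj.1
        gcongr
      rw [e1]
      have e4 : W m / m = 2 * (W m * (1 / m - 1 / ((2 * m : ℕ) : ℝ))) := by
        push_cast
        field_simp
        ring
      rw [e4]
      linarith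
  have hzero : Tendsto (fun m : ℕ => W m / m) atTop (𝓝 0) :=
    squeeze_zero (fun m => by have := hW0 m; positivity) hle hdiff
  have h1 := hs.hasSum.tendsto_sum_nat
  have h2 : Tendsto (fun m : ℕ => ∑ j ∈ Finset.range m, W j / ((j : ℝ) * (j + 1)) + W m / m) atTop
      (𝓝 (∑' j : ℕ, W j / ((j : ℝ) * (j + 1)) + 0)) := hA.add hzero
  simp_rw [abel_partial W hW] at h1
  rw [add_zero] at h2
  exact tendsto_nhds_unique h1 h2

end Pool.Agent.Y924.DV
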