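import Mathlib
import Pool.Agent.Y924.DV.Asym

/-!
Existence of the density and the formula for it.
-/

namespace Pool.Agent.Y924.DV

open Finset Filter Topology

theorem g_zero (N : ℕ) : g N 0 = 0 := mx_zero _

theorem g_mono (N : ℕ) : Monotone (g N) := mx_mono _

theorem g_mono_real (N : ℕ) : Monotone (fun j => (g N j : ℝ)) := by
  intro a b h
  have := g_mono N h
  simpa using this

theorem g_succ_le (N j : ℕ) : g N (j + 1) ≤ g N j + 1 := by
  classical
  unfold g
  rw [mx_le_iff]
  intro A h1 h2 h3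
  have h4 : (A.erase (j + 1)).card ≤ mx (fun s => s ∈ Nat.smoothNumbers N) j := by
    apply le_mx
    · intro a ha
      rw [Finset.mem_erase] at ha
      have := Finset.mem_Icc.mp (h1 ha.2)
      rw [Finset.mem_Icc]
      omega
    · intro a ha
      exact h2 a (Finset.mem_of_mem_erase ha)
    · exact h3.subset (Finset.erase_subset _ _)
  have h5 : A.card ≤ (A.erase (j + 1)).card + 1 := by
    have := Finset.pred_card_le_card_erase (s := A) (a := j + 1)
    omega
  omega

theorem g_succ_of_not (N j : ℕ) (h : j + 1 ∉ Nat.smoothNumbers N) : g N (j + 1) = g N j := by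
  apply le_antisymm
  · unfold g
    rw [mx_le_iff]
    intro A h1 h2 h3
    apply le_mx
    · intro a ha
      have := Finset.mem_Icc.mp (h1 ha)
      rw [Finset.mem_Icc]
      have : a ≠ j + 1 := by rintro rfl; exact h (h2 _ ha)
      omega
    · exact h2
    · exact h3
  · exact g_mono N (Nat.le_succ j)

theorem summable_smooth (N : ℕ) :
    Summable (Set.indicator (Nat.smoothNumbers N) (fun m : ℕ => (1 : ℝ) / m)) := by
  let f : ℕ →* ℝ :=
    { toFun := fun m => (m : ℝ)⁻¹
      map_one' := by simp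
      map_mul' := by intro a b; simp [mul_comm] }
  have h : ∀ {p : ℕ}, p.Prime → ‖f p‖ < 1 := by
    intro p hp
    change ‖(p : ℝ)⁻¹‖ < 1
    rw [norm_inv, Real.norm_natCast]
    apply inv_lt_one_of_one_lt₀
    exact_mod_cast hp.one_lt
  have h2 := (EulerProduct.summable_and_hasSum_smoothNumbers_prod_primesBelow_geometric h N).1
  rw [← summable_subtype_iff_indicator]
  refine h2.congr ?_
  intro m
  change ‖((m : ℕ) : ℝ)⁻¹‖ = _
  rw [norm_inv, Real.norm_natCast]
  simp

theorem summable_delta (N : ℕ) :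
    Summable (fun t : ℕ => ((g N (t + 1) : ℝ) - g N t) / ((t : ℝ) + 1)) := by
  have h := (summable_nat_add_iff 1).mpr (summable_smooth N)
  refine Summable.of_nonneg_of_le ?_ ?_ h
  · intro t
    have : (g N t : ℝ) ≤ g N (t + 1) := by exact_mod_cast g_mono N (Nat.le_succ t)
    have h2 : 0 ≤ (g N (t + 1) : ℝ) - g N t := by linarith
    positivity
  · intro t
    by_cases hs : t + 1 ∈ Nat.smoothNumbers N
    · rw [Set.indicator_of_mem hs]
      push_cast
      have : (g N (t + 1) : ℝ) ≤ g N t + 1 := by exact_mod_cast g_succ_le N t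
      gcongr
      linarith
    · rw [Set.indicator_of_notMem hs, g_succ_of_not N t hs]
      simp

/-- The approximating constants. -/
noncomputable def cc (N : ℕ) : ℝ := rho N * ∑' j : ℕ, (g N j : ℝ) / ((j : ℝ) * (j + 1))

theorem summable_g (N : ℕ) : Summable (fun j : ℕ => (g N j : ℝ) / ((j : ℝ) * (j + 1))) :=
  (abel (fun j => (g N j : ℝ)) (by simp [g_zero]) (g_mono_real N) (summable_delta N)).1

theorem tendsto_F (N : ℕ) :
    Tendsto (fun n : ℕ => (∑ v ∈ rgh N n, (g N (n / v) : ℝ)) / n) atTop (𝓝 (cc N)) := by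
  have h1 := tendsto_sum_W N (fun j => (g N j : ℝ)) (by simp [g_zero]) (by
    refine (summable_delta N).congr ?_
    intro t
    have : (g N t : ℝ) ≤ g N (t + 1) := by exact_mod_cast g_mono N (Nat.le_succ t)
    rw [abs_of_nonneg (by linarith)])
  have h2 := (abel (fun j => (g N j : ℝ)) (by simp [g_zero]) (g_mono_real N) (summable_delta N)).2
  unfold cc
  rw [← h2]
  exact h1

theorem u_le (N n : ℕ) : (f n : ℝ) / n ≤ (∑ v ∈ rgh N n, (g N (n / v) : ℝ)) / n := by
  have h := f_le N n
  have h' : (f n : ℝ) ≤ ∑ v ∈ rgh N n, (g N (n / v) : ℝ) := by exact_mod_cast h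
  gcongr

theorem le_u {N : ℕ} (hN : 0 < N) (n : ℕ) :
    (∑ v ∈ rgh N n, (g N (n / v) : ℝ)) / n ≤ (f n : ℝ) / n + 1 / N := by
  rcases Nat.eq_zero_or_pos n with h | h
  · subst h
    simp
  · have h1 := sum_g_le hN n
    have h1' : (∑ v ∈ rgh N n, (g N (n / v) : ℝ)) ≤ f n + ((n / N : ℕ) : ℝ) := by
      exact_mod_cast h1
    have h2 : ((n / N : ℕ) : ℝ) ≤ n / N := Nat.cast_div_le
    have hn : (0 : ℝ) < n := by exact_mod_cast h
    rw [div_le_iff₀ hn]
    have : ((f n : ℝ) / n + 1 / N) * n = f n + n / N := by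
      field_simp
    rw [this]
    linarith

/-- **Existence of the density**, with the two-sided approximation by `cc N`. -/
theorem limit_exists :
    ∃ c : ℝ, Tendsto (fun n : ℕ => (f n : ℝ) / n) atTop (𝓝 c) ∧
      ∀ N : ℕ, 0 < N → c ≤ cc N ∧ cc N ≤ c + 1 / N := by
  have hc : CauchySeq (fun n : ℕ => (f n : ℝ) / n) := by
    rw [Metric.cauchySeq_iff]
    intro ε hε
    obtain ⟨N, hN⟩ := exists_nat_gt (4 / ε)
    have hN0 : (0 : ℝ) < N := lt_trans (by positivity) hN
    have hN0' : 0 < N := by exact_mod_cast hN0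
    have h1N : 1 / (N : ℝ) < ε / 4 := by
      rw [div_lt_iff₀ hN0]
      rw [div_lt_iff₀ hε] at hN
      linarith
    have h := tendsto_F N
    rw [Metric.tendsto_atTop] at h
    obtain ⟨n0, hn0⟩ := h (ε / 4) (by positivity)
    refine ⟨n0, fun m hm n hn => ?_⟩
    have a1 := hn0 m hm
    have a2 := hn0 n hn
    rw [Real.dist_eq, abs_lt] at a1 a2
    have b1 := u_le N m
    have b2 := u_le N n
    have b3 := le_u hN0' m
    have b4 := le_u hN0' n
    rw [Real.dist_eq, abs_lt]
    constructor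
    · linarith [a1.1, a2.2]
    · linarith [a1.2, a2.1]
  obtain ⟨c, hc⟩ := cauchySeq_tendsto_of_complete hc
  refine ⟨c, hc, fun N hN => ⟨?_, ?_⟩⟩
  · exact le_of_tendsto_of_tendsto' hc (tendsto_F N) (u_le N)
  · exact le_of_tendsto_of_tendsto' (tendsto_F N) (hc.add_const _) (le_u hN)

end Pool.Agent.Y924.DV
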