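import Mathlib
import Pool.Agent.Y924.DV.Core

/-!
A sound search for upper bounds of the extremal function on numbers `2^a * 3^b * 5^c`, `c ≤ 1`.
-/

namespace Pool.Agent.Y924.DV

open Finset

/-- `t1`, `t2` are lower bounds for the two largest values of `a + 1` on `F`. -/
def TT (F : Finset ℕ) (a : ℕ → ℕ) (t1 t2 : ℕ) : Prop :=
  (t1 = 0 ∨ ∃ y ∈ F, t1 ≤ a y + 1) ∧
    (t2 = 0 ∨ ∃ y ∈ F, ∃ z ∈ F, y ≠ z ∧ t2 ≤ a y + 1 ∧ t2 ≤ a z + 1)

theorem TT.ins {F : Finset ℕ} {a : ℕ → ℕ} {t1 t2 : ℕ} (h : TT F a t1 t2) {x w : ℕ} (hx : x ∉ F)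
    (hw : w ≤ a x + 1) : TT (insert x F) a (max t1 w) (max t2 (min t1 w)) := by
  classical
  obtain ⟨h1, h2⟩ := h
  constructor
  · rcases le_total w t1 with hh | hh
    · rw [max_eq_left hh]
      rcases h1 with h1 | ⟨y, hy, hy'⟩
      · exact Or.inl h1
      · exact Or.inr ⟨y, Finset.mem_insert_of_mem hy, hy'⟩
    · rw [max_eq_right hh]
      exact Or.inr ⟨x, Finset.mem_insert_self _ _, hw⟩
  · rcases le_total (min t1 w) t2 with hh | hh
    · rw [max_eq_left hh]
      rcases h2 with h2 | ⟨y, hy, z, hz, hyz, hy', hz'⟩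
      · exact Or.inl h2
      · exact Or.inr ⟨y, Finset.mem_insert_of_mem hy, z, Finset.mem_insert_of_mem hz, hyz, hy', hz'⟩
    · rw [max_eq_right hh]
      rcases Nat.eq_zero_or_pos (min t1 w) with h0 | h0
      · exact Or.inl h0
      · right
        rcases h1 with h1 | ⟨y, hy, hy'⟩
        · omega
        · refine ⟨y, Finset.mem_insert_of_mem hy, x, Finset.mem_insert_self _ _, ?_, ?_, ?_⟩
          · rintro rfl; exact hx hy
          · omega
          · omega

/-- The abstract hypothesis: no element lies below two others. -/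
def Hyp (A : Finset ℕ) (a q : ℕ → ℕ) : Prop :=
  (∀ x ∈ A, ∀ y ∈ A, ∀ z ∈ A, x ≠ y → x ≠ z → y ≠ z → q x ≤ q y → (q x % 2 = 1 → q y % 2 = 1) →
    q x ≤ q z → (q x % 2 = 1 → q z % 2 = 1) → a x ≤ a y → a x ≤ a z → False) ∧
  (∀ x ∈ A, ∀ y ∈ A, q x = q y → a x = a y → x = y)

/-- Caps on the values of `a` in each chunk. -/
def CapsOK (A : Finset ℕ) (a q : ℕ → ℕ) : List ℕ → Prop
  | [] => True
  | c :: l => (∀ x ∈ A, q x = l.length → a x < c) ∧ CapsOK A a q l

/-- The search. -/
def reach : List ℕ → ℕ → ℕ → ℕ → ℕ → ℕ → Bool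
  | [], _, _, _, _, need => Nat.beq need 0
  | c :: l, t1, t2, u1, u2, need =>
    Nat.beq need 0 || (Nat.ble need (2 * (l.length + 1)) &&
      (reach l t1 t2 u1 u2 need ||
       (bif Nat.beq (l.length % 2) 0 then
         (Nat.blt t2 c && reach l (max t1 (t2 + 1)) (max t2 (min t1 (t2 + 1))) u1 u2 (need - 1)) ||
         (Nat.blt (t1 + 1) c && reach l (t1 + 2) (t1 + 1) u1 u2 (need - 2))
       else
         (Nat.blt u2 c && reach l (max t1 (u2 + 1)) (max t2 (min t1 (u2 + 1)))
            (max u1 (u2 + 1)) (max u2 (min u1 (u2 + 1))) (need - 1)) ||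
         (Nat.blt (u1 + 1) c && reach l (max (max t1 (u1 + 2)) (u1 + 1))
            (max (max t2 (min t1 (u1 + 2))) (min (max t1 (u1 + 2)) (u1 + 1)))
            (u1 + 2) (u1 + 1) (need - 2)))))

theorem chunk_three {A : Finset ℕ} {a q : ℕ → ℕ} (H : Hyp A a q) {x y z : ℕ} (hx : x ∈ A)
    (hy : y ∈ A) (hz : z ∈ A) (hxy : x ≠ y) (hxz : x ≠ z) (hyz : y ≠ z) (h1 : q x = q y)
    (h2 : q x = q z) : False := by
  have k := H.1
  rcases le_total (a x) (a y) with h3 | h3
  · rcases le_total (a x) (a z) with h4 | h4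
    · exact k x hx y hy z hz hxy hxz hyz h1.le (fun h => by omega) h2.le (fun h => by omega) h3 h4
    · exact k z hz x hx y hy (Ne.symm hxz) (Ne.symm hyz) hxy h2.ge (fun h => by omega)
        (by omega) (fun h => by omega) h4 (by omega)
  · rcases le_total (a y) (a z) with h4 | h4
    · exact k y hy x hx z hz (Ne.symm hxy) hyz hxz h1.ge (fun h => by omega)
        (by omega) (fun h => by omega) h3 h4
    · exact k z hz x hx y hy (Ne.symm hxz) (Ne.symm hyz) hxy h2.ge (fun h => by omega)
        (by omega) (fun h => by omega) (by omega) h4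

theorem chunk_card {A : Finset ℕ} {a q : ℕ → ℕ} (H : Hyp A a q) (k : ℕ) :
    (A.filter (fun x => q x = k)).card ≤ 2 := by
  classical
  by_contra hh
  push Not at hh
  obtain ⟨x, y, z, hx, hy, hz, hxy, hxz, hyz⟩ := Finset.two_lt_card_iff.mp hh
  rw [Finset.mem_filter] at hx hy hz
  exact chunk_three H hx.1 hy.1 hz.1 hxy hxz hyz (by omega) (by omega)

theorem filter_split (A : Finset ℕ) (q : ℕ → ℕ) (k : ℕ) :
    (A.filter (fun x => q x < k + 1)).card =
      (A.filter (fun x => q x = k)).card + (A.filter (fun x => q x < k)).card := by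
  classical
  rw [← Finset.card_filter_add_card_filter_not (s := A.filter (fun x => q x < k + 1))
    (fun x => q x = k), Finset.filter_filter, Finset.filter_filter]
  congr 2
  · apply Finset.filter_congr
    intro x _
    constructor
    · exact fun h => h.2
    · intro h; exact ⟨by omega, h⟩
  · apply Finset.filter_congr
    intro x _
    omega

theorem card_le_two_mul {A : Finset ℕ} {a q : ℕ → ℕ} (H : Hyp A a q) (k : ℕ) :
    (A.filter (fun x => q x < k)).card ≤ 2 * k := by
  classical
  induction k with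
  | zero => simp
  | succ k ih =>
    rw [filter_split]
    have := chunk_card H k
    omega

theorem filter_le_eq (A : Finset ℕ) (q : ℕ → ℕ) (k : ℕ) :
    A.filter (fun x => k ≤ q x) =
      (A.filter (fun x => k + 1 ≤ q x)) ∪ (A.filter (fun x => q x = k)) := by
  classical
  rw [← Finset.filter_or]
  apply Finset.filter_congr
  intro x _
  omega

theorem filter_le_odd (A : Finset ℕ) (q : ℕ → ℕ) (k : ℕ) (hk : k % 2 = 1) :
    A.filter (fun x => k ≤ q x ∧ q x % 2 = 1) =
      (A.filter (fun x => k + 1 ≤ q x ∧ q x % 2 = 1)) ∪ (A.filter (fun x => q x = k)) := by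
  classical
  rw [← Finset.filter_or]
  apply Finset.filter_congr
  intro x _
  omega

theorem filter_le_even (A : Finset ℕ) (q : ℕ → ℕ) (k : ℕ) (hk : k % 2 = 0) :
    A.filter (fun x => k ≤ q x ∧ q x % 2 = 1) =
      (A.filter (fun x => k + 1 ≤ q x ∧ q x % 2 = 1)) := by
  classical
  apply Finset.filter_congr
  intro x _
  omega

/-- A single element of a chunk lies above the second largest processed value. -/
theorem single_lt {A F : Finset ℕ} {a q : ℕ → ℕ} (H : Hyp A a q) {x t1 t2 : ℕ} (hx : x ∈ A)
    (hF : ∀ y ∈ F, y ∈ A ∧ q x < q y ∧ (q x % 2 = 1 → q y % 2 = 1)) (h : TT F a t1 t2) :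
    t2 < a x + 1 := by
  by_contra hh
  push Not at hh
  rcases h.2 with h0 | ⟨y, hy, z, hz, hyz, hy', hz'⟩
  · omega
  · obtain ⟨y1, y2, y3⟩ := hF y hy
    obtain ⟨z1, z2, z3⟩ := hF z hz
    exact H.1 x hx y y1 z z1 (by rintro rfl; omega) (by rintro rfl; omega) hyz y2.le y3 z2.le z3
      (by omega) (by omega)

/-- The smaller element of a chunk with two elements lies above all processed values. -/
theorem double_lt {A F : Finset ℕ} {a q : ℕ → ℕ} (H : Hyp A a q) {x x' t1 t2 : ℕ} (hx : x ∈ A)
    (hx' : x' ∈ A) (hne : x ≠ x') (hq : q x = q x') (ha : a x ≤ a x')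
    (hF : ∀ y ∈ F, y ∈ A ∧ q x < q y ∧ (q x % 2 = 1 → q y % 2 = 1)) (h : TT F a t1 t2) :
    t1 < a x + 1 := by
  by_contra hh
  push Not at hh
  rcases h.1 with h0 | ⟨y, hy, hy'⟩
  · omega
  · obtain ⟨y1, y2, y3⟩ := hF y hy
    exact H.1 x hx x' hx' y y1 hne (by rintro rfl; omega) (by rintro rfl; omega) hq.le
      (by omega) y2.le y3 ha (by omega)

theorem TT.mono {F : Finset ℕ} {a : ℕ → ℕ} {t1 t2 s1 s2 : ℕ} (h : TT F a t1 t2) (h1 : s1 ≤ t1)
    (h2 : s2 ≤ t2) : TT F a s1 s2 := by
  refine ⟨?_, ?_⟩
  · rcases h.1 with h | ⟨y, hy, hy'⟩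
    · left; omega
    · exact Or.inr ⟨y, hy, by omega⟩
  · rcases h.2 with h | ⟨y, hy, z, hz, hyz, hy', hz'⟩
    · left; omega
    · exact Or.inr ⟨y, hy, z, hz, hyz, by omega, by omega⟩

theorem reach_sound {A : Finset ℕ} {a q : ℕ → ℕ} (H : Hyp A a q) :
    ∀ (l : List ℕ), CapsOK A a q l → ∀ (t1 t2 u1 u2 need : ℕ),
      TT (A.filter (fun x => l.length ≤ q x)) a t1 t2 →
      TT (A.filter (fun x => l.length ≤ q x ∧ q x % 2 = 1)) a u1 u2 →
      need ≤ (A.filter (fun x => q x < l.length)).card →
      reach l t1 t2 u1 u2 need = true := by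
  classical
  intro l
  induction l with
  | nil =>
    intro _ t1 t2 u1 u2 need _ _ hn
    simp at hn
    subst hn
    rfl
  | cons c l ih =>
    rintro ⟨hc, hcaps⟩ t1 t2 u1 u2 need ht hu hn
    have ih := ih hcaps
    rw [List.length_cons] at ht hu hn
    set k := l.length with hk
    rw [reach, Bool.or_eq_true, Bool.and_eq_true]
    rcases Nat.eq_zero_or_pos need with h0 | h0
    · left; subst h0; rfl
    right
    refine ⟨Nat.ble_eq_true_of_le (hn.trans (card_le_two_mul H (k + 1))), ?_⟩
    rw [filter_split] at hn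
    have hS2 := chunk_card H k
    rw [Bool.or_eq_true]
    -- the processed sets
    have hT := filter_le_eq A q k
    rcases Nat.lt_or_ge 0 (A.filter (fun x => q x = k)).card with hpos | hzero
    swap
    · -- empty chunk
      left
      have hS : A.filter (fun x => q x = k) = ∅ := Finset.card_eq_zero.mp (by omega)
      apply ih
      · rw [hT, hS, Finset.union_empty]; exact ht
      · rcases Nat.mod_two_eq_zero_or_one k with hk2 | hk2
        · rw [filter_le_even A q k hk2]; exact hu
        · rw [filter_le_odd A q k hk2, hS, Finset.union_empty]; exact hu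
      · omega
    right
    have hFt : ∀ x, q x = k → k % 2 = 0 → ∀ y ∈ A.filter (fun x => k + 1 ≤ q x),
        y ∈ A ∧ q x < q y ∧ (q x % 2 = 1 → q y % 2 = 1) := by
      intro x hx hk2 y hy
      rw [Finset.mem_filter] at hy
      refine ⟨hy.1, by omega, fun h => by omega⟩
    have hFu : ∀ x, q x = k → ∀ y ∈ A.filter (fun x => k + 1 ≤ q x ∧ q x % 2 = 1),
        y ∈ A ∧ q x < q y ∧ (q x % 2 = 1 → q y % 2 = 1) := by
      intro x hx y hy
      rw [Finset.mem_filter] at hy
      refine ⟨hy.1, by omega, fun h => hy.2.2⟩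
    have hnt : ∀ x, q x = k → x ∉ A.filter (fun x => k + 1 ≤ q x) := by
      intro x hx hy
      rw [Finset.mem_filter] at hy
      omega
    have hnu : ∀ x, q x = k → x ∉ A.filter (fun x => k + 1 ≤ q x ∧ q x % 2 = 1) := by
      intro x hx hy
      rw [Finset.mem_filter] at hy
      omega
    rcases Nat.lt_or_ge 1 (A.filter (fun x => q x = k)).card with hcard | hcard
    · -- two elements
      have hcard2 : (A.filter (fun x => q x = k)).card = 2 := by omega
      obtain ⟨x, y, hxy, hS, hle⟩ : ∃ x y, x ≠ y ∧ A.filter (fun x => q x = k) = {x, y} ∧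
          a x ≤ a y := by
        obtain ⟨x, y, hxy, hS⟩ := Finset.card_eq_two.mp hcard2
        rcases le_total (a x) (a y) with h | h
        · exact ⟨x, y, hxy, hS, h⟩
        · exact ⟨y, x, hxy.symm, by rw [hS, Finset.pair_comm], h⟩
      have hxm : x ∈ A ∧ q x = k := by
        have : x ∈ A.filter (fun x => q x = k) := by rw [hS]; simp
        rwa [Finset.mem_filter] at this
      have hym : y ∈ A ∧ q y = k := by
        have : y ∈ A.filter (fun x => q x = k) := by rw [hS]; simp
        rwa [Finset.mem_filter] at this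
      have hlt : a x < a y := by
        rcases Nat.lt_or_ge (a x) (a y) with h | h
        · exact h
        · exact absurd (H.2 x hxm.1 y hym.1 (by omega) (by omega)) hxy
      have hcy := hc y hym.1 hym.2
      rcases Nat.mod_two_eq_zero_or_one k with hk2 | hk2
      · have hb : Nat.beq (k % 2) 0 = true := by rw [hk2]; rfl
        rw [hb, cond_true, Bool.or_eq_true]
        right
        have h1 := double_lt H hxm.1 hym.1 hxy (by omega) hle (hFt x hxm.2 hk2) ht
        rw [Bool.and_eq_true]
        refine ⟨by rw [Nat.blt_eq]; omega, ?_⟩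
        apply ih
        · rw [hT, hS]
          have e1 := (ht.ins (hnt y hym.2) (w := t1 + 2) (by omega)).ins (x := x) (w := t1 + 1)
            (by rw [Finset.mem_insert, not_or]; exact ⟨hxy, hnt x hxm.2⟩) (by omega)
          have e2 : insert x (insert y (A.filter (fun x => k + 1 ≤ q x))) =
              A.filter (fun x => k + 1 ≤ q x) ∪ {x, y} := by
            ext z; simp only [Finset.mem_insert, Finset.mem_union, Finset.mem_singleton]; tauto
          rw [e2] at e1
          exact e1.mono (by omega) (by omega)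
        · rw [filter_le_even A q k hk2]; exact hu
        · omega
      · have hb : Nat.beq (k % 2) 0 = false := by rw [hk2]; rfl
        rw [hb, cond_false, Bool.or_eq_true]
        right
        have h1 := double_lt H hxm.1 hym.1 hxy (by omega) hle (hFu x hxm.2) hu
        rw [Bool.and_eq_true]
        refine ⟨by rw [Nat.blt_eq]; omega, ?_⟩
        apply ih
        · rw [hT, hS]
          have e1 := (ht.ins (hnt y hym.2) (w := u1 + 2) (by omega)).ins (x := x) (w := u1 + 1)
            (by rw [Finset.mem_insert, not_or]; exact ⟨hxy, hnt x hxm.2⟩) (by omega)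
          have e2 : insert x (insert y (A.filter (fun x => k + 1 ≤ q x))) =
              A.filter (fun x => k + 1 ≤ q x) ∪ {x, y} := by
            ext z; simp only [Finset.mem_insert, Finset.mem_union, Finset.mem_singleton]; tauto
          rw [e2] at e1
          exact e1
        · rw [filter_le_odd A q k hk2, hS]
          have e1 := (hu.ins (hnu y hym.2) (w := u1 + 2) (by omega)).ins (x := x) (w := u1 + 1)
            (by rw [Finset.mem_insert, not_or]; exact ⟨hxy, hnu x hxm.2⟩) (by omega)
          have e2 : insert x (insert y (A.filter (fun x => k + 1 ≤ q x ∧ q x % 2 = 1))) =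
              A.filter (fun x => k + 1 ≤ q x ∧ q x % 2 = 1) ∪ {x, y} := by
            ext z; simp only [Finset.mem_insert, Finset.mem_union, Finset.mem_singleton]; tauto
          rw [e2] at e1
          exact e1.mono (by omega) (by omega)
        · omega
    · -- one element
      have hcard1 : (A.filter (fun x => q x = k)).card = 1 := by omega
      obtain ⟨x, hS⟩ := Finset.card_eq_one.mp hcard1
      have hxm : x ∈ A ∧ q x = k := by
        have : x ∈ A.filter (fun x => q x = k) := by rw [hS]; simp
        rwa [Finset.mem_filter] at this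
      have hcx := hc x hxm.1 hxm.2
      rcases Nat.mod_two_eq_zero_or_one k with hk2 | hk2
      · have hb : Nat.beq (k % 2) 0 = true := by rw [hk2]; rfl
        rw [hb, cond_true, Bool.or_eq_true]
        left
        have h1 := single_lt H hxm.1 (hFt x hxm.2 hk2) ht
        rw [Bool.and_eq_true]
        refine ⟨by rw [Nat.blt_eq]; omega, ?_⟩
        apply ih
        · rw [hT, hS]
          have e1 := ht.ins (hnt x hxm.2) (w := t2 + 1) (by omega)
          rwa [Finset.insert_eq, Finset.union_comm] at e1
        · rw [filter_le_even A q k hk2]; exact hu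
        · omega
      · have hb : Nat.beq (k % 2) 0 = false := by rw [hk2]; rfl
        rw [hb, cond_false, Bool.or_eq_true]
        left
        have h1 := single_lt H hxm.1 (hFu x hxm.2) hu
        rw [Bool.and_eq_true]
        refine ⟨by rw [Nat.blt_eq]; omega, ?_⟩
        apply ih
        · rw [hT, hS]
          have e1 := ht.ins (hnt x hxm.2) (w := u2 + 1) (by omega)
          rwa [Finset.insert_eq, Finset.union_comm] at e1
        · rw [filter_le_odd A q k hk2, hS]
          have e1 := hu.ins (hnu x hxm.2) (w := u2 + 1) (by omega)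
          rwa [Finset.insert_eq, Finset.union_comm] at e1
        · omega

end Pool.Agent.Y924.DV
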