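import Mathlib
import Pool.Agent.Y924.DV.Reach

/-!
Bounds for the extremal function on numbers `2^a * 3^b * 5^c`, `c ≤ 1`.
-/

namespace Pool.Agent.Y924.DV

open Finset

/-- Numbers `2^a * 3^b * 5^c` with `c ≤ 1`. -/
def Pq (s : ℕ) : Prop := s ∈ Nat.smoothNumbers 7 ∧ ¬ 25 ∣ s

/-- The extremal function on these numbers. -/
noncomputable def gp (j : ℕ) : ℕ := mx Pq j

theorem primesBelow_seven' : Nat.primesBelow 7 = {2, 3, 5} := by decide +kernel

theorem smooth_eq {x : ℕ} (hx : x ∈ Nat.smoothNumbers 7) :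
    x = 2 ^ x.factorization 2 * (3 ^ x.factorization 3 * 5 ^ x.factorization 5) := by
  have h0 : x ≠ 0 := Nat.ne_zero_of_mem_smoothNumbers hx
  have h1 := Nat.prod_factorization_pow_eq_self h0
  have h2 : x.factorization.support ⊆ {2, 3, 5} := by
    intro p hp
    rw [Nat.support_factorization, Nat.mem_primeFactors] at hp
    rw [Nat.mem_smoothNumbers'] at hx
    have := hx p hp.1 hp.2.1
    rw [← primesBelow_seven', Nat.mem_primesBelow]
    exact ⟨this, hp.1⟩
  rw [Finsupp.prod_of_support_subset _ h2 _ (by simp)] at h1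
  rw [Finset.prod_insert (by decide), Finset.prod_insert (by decide), Finset.prod_singleton] at h1
  exact h1.symm

/-- The exponent of 2. -/
def av (x : ℕ) : ℕ := x.factorization 2

/-- The chunk number. -/
def qv (x : ℕ) : ℕ := 2 * x.factorization 3 + x.factorization 5

theorem five_le {x : ℕ} (hx : Pq x) : x.factorization 5 ≤ 1 := by
  by_contra hh
  push Not at hh
  have h0 : x ≠ 0 := Nat.ne_zero_of_mem_smoothNumbers hx.1
  apply hx.2
  have : 5 ^ 2 ∣ x := (Nat.Prime.pow_dvd_iff_le_factorization (by norm_num) h0).mpr (by omega)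
  simpa using this

theorem hyp_of_adm {A : Finset ℕ} (h1 : ∀ x ∈ A, Pq x) (h2 : Admissible A) : Hyp A av qv := by
  have hdvd : ∀ x ∈ A, ∀ y ∈ A, qv x ≤ qv y → (qv x % 2 = 1 → qv y % 2 = 1) → av x ≤ av y →
      x ∣ y := by
    intro x hx y hy hq hm ha
    have hx5 := five_le (h1 x hx)
    have hy5 := five_le (h1 y hy)
    rw [smooth_eq (h1 x hx).1, smooth_eq (h1 y hy).1]
    unfold qv at hq hm
    unfold av at ha
    exact mul_dvd_mul (pow_dvd_pow _ ha)
      (mul_dvd_mul (pow_dvd_pow _ (by omega)) (pow_dvd_pow _ (by omega)))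
  constructor
  · intro x hx y hy z hz hxy hxz hyz hq1 hm1 hq2 hm2 ha1 ha2
    exact h2 x hx y hy z hz hxy hxz hyz (hdvd x hx y hy hq1 hm1 ha1) (hdvd x hx z hz hq2 hm2 ha2)
  · intro x hx y hy hq ha
    have hx5 := five_le (h1 x hx)
    have hy5 := five_le (h1 y hy)
    rw [smooth_eq (h1 x hx).1, smooth_eq (h1 y hy).1]
    unfold qv at hq
    unfold av at ha
    rw [ha, show x.factorization 3 = y.factorization 3 by omega,
      show x.factorization 5 = y.factorization 5 by omega]

/-- The number of `a` with `2^a * m < T`. -/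
def capn (T m : ℕ) : ℕ := bif Nat.blt m T then Nat.log2 ((T - 1) / m) + 1 else 0

theorem lt_capn {T m a : ℕ} (hm : 0 < m) (h : 2 ^ a * m < T) : a < capn T m := by
  have h1 : m < T := lt_of_le_of_lt (Nat.le_mul_of_pos_left _ (by positivity)) h
  have h2 : Nat.blt m T = true := by rw [Nat.blt_eq]; exact h1
  rw [capn, h2, cond_true]
  have h3 : 2 ^ a ≤ (T - 1) / m := by
    rw [Nat.le_div_iff_mul_le hm]
    omega
  have h4 : (T - 1) / m ≠ 0 := by
    have : 0 < 2 ^ a := by positivity
    omega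
  have h5 := (Nat.le_log2 h4).mpr h3
  omega

/-- The list of caps. -/
def capList (T : ℕ) : ℕ → List ℕ
  | 0 => []
  | k + 1 => capn T (3 ^ (k / 2) * 5 ^ (k % 2)) :: capList T k

theorem capList_length (T k : ℕ) : (capList T k).length = k := by
  induction k with
  | zero => rfl
  | succ k ih => rw [capList, List.length_cons, ih]

theorem capsOK_capList {A : Finset ℕ} {T : ℕ} (h1 : ∀ x ∈ A, Pq x) (h2 : ∀ x ∈ A, x < T) (k : ℕ) :
    CapsOK A av qv (capList T k) := by
  induction k with
  | zero => trivial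
  | succ k ih =>
    refine ⟨?_, ih⟩
    rw [capList_length]
    intro x hx hq
    apply lt_capn (by positivity)
    have h5 := five_le (h1 x hx)
    have h3 := h2 x hx
    rw [smooth_eq (h1 x hx).1] at h3
    unfold qv at hq
    rw [show k / 2 = x.factorization 3 by omega, show k % 2 = x.factorization 5 by omega]
    exact h3

theorem qv_lt {x : ℕ} (hx : Pq x) (h : x < 3 ^ 11) : qv x < 22 := by
  have h5 := five_le hx
  have h0 : 0 < x := Nat.pos_of_ne_zero (Nat.ne_zero_of_mem_smoothNumbers hx.1)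
  have h3 : 3 ^ x.factorization 3 ≤ x := Nat.le_of_dvd h0 (Nat.ordProj_dvd x 3)
  have h4 : x.factorization 3 < 11 := by
    by_contra hh
    push Not at hh
    have : 3 ^ 11 ≤ 3 ^ x.factorization 3 := Nat.pow_le_pow_right (by norm_num) hh
    omega
  unfold qv
  omega

/-- **Soundness of the search.** -/
theorem gp_lt {T k j : ℕ} (hT : T ≤ 3 ^ 11) (h : reach (capList T 22) 0 0 0 0 k = false)
    (hj : j < T) : gp j < k := by
  classical
  by_contra hh
  push Not at hh
  obtain ⟨A, hA1, hA2, hA3, hA4⟩ := exists_mx Pq j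
  have hlt : ∀ x ∈ A, x < T := by
    intro x hx
    have := Finset.mem_Icc.mp (hA1 hx)
    omega
  have h1 := reach_sound (hyp_of_adm hA2 hA3) (capList T 22) (capsOK_capList hA2 hlt 22)
    0 0 0 0 k ⟨Or.inl rfl, Or.inl rfl⟩ ⟨Or.inl rfl, Or.inl rfl⟩ (by
      rw [capList_length]
      have : A.filter (fun x => qv x < 22) = A := by
        rw [Finset.filter_eq_self]
        intro x hx
        exact qv_lt (hA2 x hx) (lt_of_lt_of_le (hlt x hx) hT)
      rw [this, hA4]
      exact hh)
  rw [h] at h1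
  exact Bool.false_ne_true h1

/-- Splitting off the multiples of `r`. -/
theorem split_mul {P P' : ℕ → Prop} {r n : ℕ} (hr : 0 < r) (h : ∀ y, P (r * y) → P' y)
    {A : Finset ℕ} (hA1 : A ⊆ Finset.Icc 1 n) (hA2 : ∀ a ∈ A, P a) (hA3 : Admissible A) :
    A.card ≤ (A.filter (fun x => ¬ r ∣ x)).card + mx P' (n / r) := by
  classical
  rw [← Finset.card_filter_add_card_filter_not (s := A) (fun x => r ∣ x), add_comm]
  apply Nat.add_le_add_left
  have hinj : Set.InjOn (fun x : ℕ => x / r) ((A.filter (fun x => r ∣ x) : Finset ℕ) : Set ℕ) := by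
    intro x hx y hy hxy
    simp only [Finset.coe_filter, Set.mem_setOf_eq] at hx hy
    obtain ⟨x', rfl⟩ := hx.2
    obtain ⟨y', rfl⟩ := hy.2
    simp only [Nat.mul_div_cancel_left _ hr] at hxy
    rw [hxy]
  rw [← Finset.card_image_of_injOn hinj]
  apply le_mx
  · intro y hy
    rw [Finset.mem_image] at hy
    obtain ⟨x, hx, rfl⟩ := hy
    rw [Finset.mem_filter] at hx
    obtain ⟨x', rfl⟩ := hx.2
    have := Finset.mem_Icc.mp (hA1 hx.1)
    rw [Nat.mul_div_cancel_left _ hr, Finset.mem_Icc]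
    constructor
    · rcases Nat.eq_zero_or_pos x' with h0 | h0
      · subst h0; omega
      · exact h0
    · rw [Nat.le_div_iff_mul_le hr, mul_comm]; exact this.2
  · intro y hy
    rw [Finset.mem_image] at hy
    obtain ⟨x, hx, rfl⟩ := hy
    rw [Finset.mem_filter] at hx
    obtain ⟨x', rfl⟩ := hx.2
    simp only [Nat.mul_div_cancel_left _ hr]
    exact h _ (hA2 _ hx.1)
  · apply admissible_image_mul hr
    apply hA3.subset
    intro z hz
    rw [Finset.mem_image] at hz
    obtain ⟨y, hy, rfl⟩ := hz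
    rw [Finset.mem_image] at hy
    obtain ⟨x, hx, rfl⟩ := hy
    rw [Finset.mem_filter] at hx
    obtain ⟨x', rfl⟩ := hx.2
    simp only [Nat.mul_div_cancel_left _ hr]
    exact hx.1

theorem smooth_of_mul {r y : ℕ} (h : r * y ∈ Nat.smoothNumbers 7) : y ∈ Nat.smoothNumbers 7 := by
  rw [Nat.mem_smoothNumbers'] at h ⊢
  intro p hp hpy
  exact h p hp (hpy.trans (Dvd.intro_left _ rfl))

theorem g_le_gp (j : ℕ) : g 7 j ≤ gp j + g 7 (j / 25) := by
  classical
  unfold g
  rw [mx_le_iff]
  intro A h1 h2 h3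
  have h4 := split_mul (P := fun s => s ∈ Nat.smoothNumbers 7) (P' := fun s => s ∈ Nat.smoothNumbers 7)
    (r := 25) (by norm_num) (fun y hy => smooth_of_mul hy) h1 h2 h3
  have h5 : (A.filter (fun x => ¬ 25 ∣ x)).card ≤ gp j := by
    apply le_mx
    · exact (Finset.filter_subset _ _).trans h1
    · intro a ha
      rw [Finset.mem_filter] at ha
      exact ⟨h2 a ha.1, ha.2⟩
    · exact h3.subset (Finset.filter_subset _ _)
  omega

theorem gp_le_div (j : ℕ) : gp j ≤ 4 + gp (j / 3) := by
  classical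
  unfold gp
  rw [mx_le_iff]
  intro A h1 h2 h3
  have h4 := split_mul (P := Pq) (P' := Pq) (r := 3) (by norm_num)
    (fun y hy => ⟨smooth_of_mul hy.1, fun hd => hy.2 (hd.mul_left 3)⟩) h1 h2 h3
  have h5 : (A.filter (fun x => ¬ 3 ∣ x)).card ≤ 4 := by
    refine le_trans (Finset.card_le_card ?_) (card_le_two_mul (hyp_of_adm h2 h3) 2)
    intro x hx
    rw [Finset.mem_filter] at hx ⊢
    refine ⟨hx.1, ?_⟩
    have h6 : x.factorization 3 = 0 := Nat.factorization_eq_zero_of_not_dvd hx.2
    have h7 := five_le (h2 x hx.1)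
    unfold qv
    omega
  omega

theorem gp_zero : gp 0 = 0 := mx_zero _

end Pool.Agent.Y924.DV
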