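import Mathlib
import Pool.Agent.Y924.DV.UpTab
import Pool.Agent.Y924.DV.Limit

/-!
Numerical upper bound for the density.
-/

namespace Pool.Agent.Y924.DV

open Finset Filter Topology

/-- The weight `1/(j(j+1))`. -/
noncomputable def ww (j : ℕ) : ℝ := 1 / ((j : ℝ) * (j + 1))

theorem ww_nonneg (j : ℕ) : 0 ≤ ww j := by unfold ww; positivity

theorem sum_ww {a b : ℕ} (ha : 0 < a) (hab : a ≤ b) :
    ∑ j ∈ Finset.Ico a b, ww j = 1 / (a : ℝ) - 1 / b := by
  induction b, hab using Nat.le_induction with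
  | base => simp
  | succ b hab ih =>
    rw [Finset.sum_Ico_succ_top hab, ih, ww]
    have h1 : (b : ℝ) ≠ 0 := by
      have : 0 < b := lt_of_lt_of_le ha hab
      positivity
    have h2 : (b : ℝ) + 1 ≠ 0 := by positivity
    push_cast
    field_simp
    ring

/-- Sum over a block of length `m`. -/
theorem sum_div (h : ℕ → ℝ) (h0 : h 0 = 0) {m : ℕ} (hm : 0 < m) (K : ℕ) :
    ∑ j ∈ Finset.range (m * K), h (j / m) * ww j = (1 / (m : ℝ)) * ∑ i ∈ Finset.range K, h i * ww i := by
  induction K with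
  | zero => simp
  | succ K ih =>
    rw [Finset.sum_range_succ, mul_add (1 / (m : ℝ)), ← ih]
    rw [← Finset.sum_range_add_sum_Ico _ (Nat.mul_le_mul_left m (Nat.le_succ K))]
    congr 1
    have h1 : ∀ j ∈ Finset.Ico (m * K) (m * (K + 1)), h (j / m) * ww j = h K * ww j := by
      intro j hj
      rw [Finset.mem_Ico] at hj
      have : j / m = K := by
        apply Nat.div_eq_of_lt_le
        · rw [mul_comm]; exact hj.1
        · rw [mul_comm]; exact hj.2
      rw [this]
    rw [Finset.sum_congr rfl h1, ← Finset.mul_sum]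
    rcases Nat.eq_zero_or_pos K with hK | hK
    · subst hK; rw [h0]; simp
    · rw [sum_ww (Nat.mul_pos hm hK) (Nat.mul_le_mul_left m (Nat.le_succ K)), ww]
      have h2 : (m : ℝ) ≠ 0 := by positivity
      have h3 : (K : ℝ) ≠ 0 := by positivity
      have h4 : (K : ℝ) + 1 ≠ 0 := by positivity
      push_cast
      field_simp
      ring

/-- Partial sums. -/
noncomputable def Sg (K : ℕ) : ℝ := ∑ j ∈ Finset.range K, (gp j : ℝ) * ww j

theorem Sg_mono : Monotone Sg := by
  intro a b hab
  unfold Sg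
  apply Finset.sum_le_sum_of_subset_of_nonneg (Finset.range_subset_range.mpr hab)
  intro i _ _
  exact mul_nonneg (by positivity) (ww_nonneg i)

theorem Sg_sub {a b : ℕ} (hab : a ≤ b) :
    ∑ j ∈ Finset.Ico a b, (gp j : ℝ) * ww j = Sg b - Sg a := by
  unfold Sg
  rw [← Finset.sum_range_add_sum_Ico _ hab]
  ring

/-- The check of the list of thresholds. -/
def okU : ℕ → List ℕ → Bool
  | _, [] => true
  | _, [_] => true
  | k, a :: b :: l => Nat.ble a b && Nat.ble 1 a && Nat.ble b (3 ^ 11) &&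
      !(reach (capList b 22) 0 0 0 0 (k + 1)) && okU (k + 1) (b :: l)

/-- The bound attached to a list of thresholds. -/
noncomputable def UU : ℕ → List ℕ → ℝ
  | _, [] => 0
  | _, [_] => 0
  | k, a :: b :: l => k * (1 / (a : ℝ) - 1 / b) + UU (k + 1) (b :: l)

/-- The last element. -/
def lastT : ℕ → List ℕ → ℕ
  | a, [] => a
  | _, b :: l => lastT b l

theorem le_lastT : ∀ (l : List ℕ) (k a : ℕ), okU k (a :: l) = true → a ≤ lastT a l
  | [], _, _, _ => le_rfl
  | b :: l, k, a, h => by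
    rw [okU] at h
    simp only [Bool.and_eq_true] at h
    have h1 := Nat.le_of_ble_eq_true h.1.1.1.1
    exact h1.trans (le_lastT l (k + 1) b h.2)

theorem Sg_le : ∀ (l : List ℕ) (k a : ℕ), okU k (a :: l) = true →
    Sg (lastT a l) - Sg a ≤ UU k (a :: l)
  | [], _, _, _ => by simp [lastT, UU]
  | b :: l, k, a, h => by
    have hh := h
    rw [okU] at h
    simp only [Bool.and_eq_true, Bool.not_eq_true'] at h
    have h1 := Nat.le_of_ble_eq_true h.1.1.1.1
    have h2 := Nat.le_of_ble_eq_true h.1.1.1.2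
    have h3 := Nat.le_of_ble_eq_true h.1.1.2
    have ih := Sg_le l (k + 1) b h.2
    have h4 : Sg b - Sg a ≤ k * (1 / (a : ℝ) - 1 / b) := by
      rw [← Sg_sub h1, ← sum_ww (by omega) h1, Finset.mul_sum]
      apply Finset.sum_le_sum
      intro j hj
      rw [Finset.mem_Ico] at hj
      have h5 : gp j ≤ k := by
        have := gp_lt h3 h.1.2 hj.2
        omega
      have h5' : (gp j : ℝ) ≤ k := by exact_mod_cast h5
      exact mul_le_mul_of_nonneg_right h5' (ww_nonneg j)
    simp only [lastT, UU]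
    linarith

/-- The recursion for the tail. -/
theorem tail_bound {J' : ℕ} (hJ : 0 < J') {K : ℕ} (hK : 3 * J' ≤ K) :
    Sg (3 * K) ≤ Sg (3 * J') + 2 / (J' : ℝ) + (1 / 2) * (Sg (3 * J') - Sg J') := by
  classical
  set h : ℕ → ℝ := fun i => if i < J' then 0 else 4 + (gp i : ℝ) with hh
  have h0 : h 0 = 0 := by simp [hh, hJ]
  have hJ0 : (0 : ℝ) < J' := by exact_mod_cast hJ
  have e1 : Sg (3 * K) - Sg (3 * J') ≤ ∑ j ∈ Finset.range (3 * K), h (j / 3) * ww j := by
    rw [← Sg_sub (by omega), ← Finset.sum_range_add_sum_Ico _ (show 3 * J' ≤ 3 * K by omega)]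
    have a1 : 0 ≤ ∑ j ∈ Finset.range (3 * J'), h (j / 3) * ww j := by
      apply Finset.sum_nonneg
      intro j _
      apply mul_nonneg _ (ww_nonneg j)
      simp only [hh]
      split_ifs
      · exact le_rfl
      · positivity
    have a2 : ∑ j ∈ Finset.Ico (3 * J') (3 * K), (gp j : ℝ) * ww j ≤
        ∑ j ∈ Finset.Ico (3 * J') (3 * K), h (j / 3) * ww j := by
      apply Finset.sum_le_sum
      intro j hj
      rw [Finset.mem_Ico] at hj
      apply mul_le_mul_of_nonneg_right _ (ww_nonneg j)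
      have : ¬ (j / 3 < J') := by omega
      simp only [hh, if_neg this]
      have := gp_le_div j
      exact_mod_cast this
    linarith
  rw [sum_div h h0 (by norm_num)] at e1
  have e2 : ∑ i ∈ Finset.range K, h i * ww i =
      4 * (1 / (J' : ℝ) - 1 / K) + (Sg K - Sg J') := by
    rw [← Finset.sum_range_add_sum_Ico _ (show J' ≤ K by omega)]
    have b1 : ∑ j ∈ Finset.range J', h j * ww j = 0 := by
      apply Finset.sum_eq_zero
      intro j hj
      rw [Finset.mem_range] at hj
      simp [hh, hj]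
    have b2 : ∑ j ∈ Finset.Ico J' K, h j * ww j =
        ∑ j ∈ Finset.Ico J' K, (4 * ww j + (gp j : ℝ) * ww j) := by
      apply Finset.sum_congr rfl
      intro j hj
      rw [Finset.mem_Ico] at hj
      have : ¬ (j < J') := by omega
      simp only [hh, if_neg this]
      ring
    rw [b1, b2, Finset.sum_add_distrib, ← Finset.mul_sum, sum_ww hJ (by omega),
      Sg_sub (by omega)]
    ring
  rw [e2] at e1
  have e3 : Sg K ≤ Sg (3 * K) := Sg_mono (by omega)
  have e4 : (0 : ℝ) ≤ 1 / K := by positivity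
  push_cast at e1
  have e5 : Sg (3 * K) - Sg (3 * J') ≤ (1 / 3) * (4 * (1 / (J' : ℝ)) + (Sg (3 * K) - Sg J')) := by
    linarith
  have e6 : (2 : ℝ) / J' = 2 * (1 / J') := by ring
  rw [e6]
  linarith

theorem Sg_le_all {J' : ℕ} (hJ : 0 < J') {B : ℝ}
    (hB : Sg (3 * J') + 2 / (J' : ℝ) + (1 / 2) * (Sg (3 * J') - Sg J') ≤ B) (K : ℕ) :
    Sg K ≤ B := by
  have h1 := tail_bound hJ (K := max K (3 * J')) (le_max_right _ _)
  have h2 : Sg K ≤ Sg (3 * max K (3 * J')) := Sg_mono (by
    have := le_max_left K (3 * J')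
    omega)
  linarith

theorem cc_le {B : ℝ} (hB : ∀ K, Sg K ≤ B) :
    ∑' j : ℕ, (g 7 j : ℝ) / ((j : ℝ) * (j + 1)) ≤ 25 / 24 * B := by
  have hnn : ∀ j : ℕ, 0 ≤ (g 7 j : ℝ) / ((j : ℝ) * (j + 1)) := fun j => by positivity
  apply Real.tsum_le_of_sum_range_le hnn
  intro K
  have hS : ∀ K, ∑ j ∈ Finset.range K, (g 7 j : ℝ) / ((j : ℝ) * (j + 1)) =
      ∑ j ∈ Finset.range K, (g 7 j : ℝ) * ww j := by
    intro K
    apply Finset.sum_congr rfl
    intro j _
    rw [ww, mul_one_div]
  rw [hS]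
  set S : ℕ → ℝ := fun K => ∑ j ∈ Finset.range K, (g 7 j : ℝ) * ww j with hSdef
  have h1 : S K ≤ S (25 * K) := by
    apply Finset.sum_le_sum_of_subset_of_nonneg (Finset.range_subset_range.mpr (by omega))
    intro i _ _
    exact mul_nonneg (by positivity) (ww_nonneg i)
  have h2 : S (25 * K) ≤ Sg (25 * K) + (1 / 25) * S K := by
    have h3 : S (25 * K) ≤ ∑ j ∈ Finset.range (25 * K), ((gp j : ℝ) * ww j + (g 7 (j / 25) : ℝ) * ww j) := by
      apply Finset.sum_le_sum
      intro j _
      rw [← add_mul]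
      apply mul_le_mul_of_nonneg_right _ (ww_nonneg j)
      exact_mod_cast g_le_gp j
    rw [Finset.sum_add_distrib, sum_div (fun i => (g 7 i : ℝ)) (by simp [g_zero]) (by norm_num)] at h3
    push_cast at h3
    exact h3
  have h4 := hB (25 * K)
  linarith

/-- The thresholds. -/
def thr : List ℕ := [2, 4, 5, 8, 10, 16, 20, 27, 40, 54, 80, 81, 135, 162, 256, 320, 405, 512,
  810, 1024, 1280, 2048, 2560, 4096, 5120, 6561, 10240, 13122, 19683, 20480, 32805, 39366, 65536,
  78732, 98415]

/-- The last thresholds. -/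
def thr' : List ℕ := [39366, 65536, 78732, 98415]

set_option maxRecDepth 100000 in
theorem ok_thr : okU 1 (1 :: thr) = true := by decide +kernel

set_option maxRecDepth 100000 in
theorem ok_thr' : okU 32 (32805 :: thr') = true := by decide +kernel

theorem Sg_one : Sg 1 = 0 := by
  simp [Sg, gp_zero]

theorem Sg_bound (K : ℕ) : Sg K ≤ 2.4228 := by
  have h1 := Sg_le thr 1 1 ok_thr
  have h2 := Sg_le thr' 32 32805 ok_thr'
  have l1 : lastT 1 thr = 98415 := rfl
  have l2 : lastT 32805 thr' = 98415 := rfl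
  rw [l1, Sg_one] at h1
  rw [l2] at h2
  apply Sg_le_all (J' := 32805) (by norm_num)
  have e : 3 * 32805 = 98415 := by norm_num
  rw [e]
  have v1 : UU 1 (1 :: thr) ≤ 2.4224 := by
    simp only [UU, thr]
    norm_num
  have v2 : UU 32 (32805 :: thr') ≤ 0.000674 := by
    simp only [UU, thr']
    norm_num
  have v3 : (2 : ℝ) / (32805 : ℕ) ≤ 0.000061 := by norm_num
  linarith

/-- **The numerical upper bound.** -/
theorem cc_seven_le (hr : rho 7 = 4 / 15) : cc 7 ≤ 0.673 := by
  have h := cc_le Sg_bound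
  unfold cc
  rw [hr]
  linarith

end Pool.Agent.Y924.DV
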