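import Mathlib
import Pool.Agent.Y924.DV.Up
import Pool.Agent.Y924.DV.LowNum

/-!
Finite two-sided approximations of the density, and the collected theorem.
-/

namespace Pool.Agent.Y924.DV

open Finset Filter Topology

/-- Number of smooth numbers. -/
noncomputable def psi (N j : ℕ) : ℕ := (smt N j).card

theorem psi_zero (N : ℕ) : psi N 0 = 0 := by
  classical
  unfold psi smt
  simp

theorem psi_succ (N t : ℕ) : (psi N (t + 1) : ℝ) - psi N t =
    Set.indicator (Nat.smoothNumbers N) (fun _ : ℕ => (1 : ℝ)) (t + 1) := by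
  classical
  by_cases hs : t + 1 ∈ Nat.smoothNumbers N
  · rw [Set.indicator_of_mem hs]
    have : smt N (t + 1) = insert (t + 1) (smt N t) := by
      ext s
      rw [mem_smt, Finset.mem_insert, mem_smt]
      constructor
      · rintro ⟨h1, h2, h3⟩
        rcases Nat.lt_or_ge s (t + 1) with h | h
        · right; exact ⟨h1, by omega, h3⟩
        · left; omega
      · rintro (rfl | ⟨h1, h2, h3⟩)
        · exact ⟨by omega, le_rfl, hs⟩
        · exact ⟨h1, by omega, h3⟩
    unfold psi
    rw [this, Finset.card_insert_of_notMem (by rw [mem_smt]; omega)]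
    push_cast
    ring
  · rw [Set.indicator_of_notMem hs]
    have : smt N (t + 1) = smt N t := by
      ext s
      rw [mem_smt, mem_smt]
      constructor
      · rintro ⟨h1, h2, h3⟩
        refine ⟨h1, ?_, h3⟩
        have : s ≠ t + 1 := by rintro rfl; exact hs h3
        omega
      · rintro ⟨h1, h2, h3⟩
        exact ⟨h1, by omega, h3⟩
    unfold psi
    rw [this]
    ring

theorem psi_mono (N : ℕ) : Monotone (fun j => (psi N j : ℝ)) := by
  apply monotone_nat_of_le_succ
  intro t
  have h := psi_succ N t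
  have h2 : 0 ≤ Set.indicator (Nat.smoothNumbers N) (fun _ : ℕ => (1 : ℝ)) (t + 1) :=
    Set.indicator_nonneg (fun _ _ => by norm_num) _
  linarith

theorem summable_psi_delta (N : ℕ) :
    Summable (fun t : ℕ => ((psi N (t + 1) : ℝ) - psi N t) / ((t : ℝ) + 1)) := by
  have h := (summable_nat_add_iff 1).mpr (summable_smooth N)
  refine h.congr ?_
  intro t
  rw [psi_succ]
  by_cases hs : t + 1 ∈ Nat.smoothNumbers N
  · rw [Set.indicator_of_mem hs, Set.indicator_of_mem hs]
    push_cast
    rfl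
  · rw [Set.indicator_of_notMem hs, Set.indicator_of_notMem hs]
    simp

theorem summable_psi (N : ℕ) : Summable (fun j : ℕ => (psi N j : ℝ) / ((j : ℝ) * (j + 1))) :=
  (abel (fun j => (psi N j : ℝ)) (by simp [psi_zero]) (psi_mono N) (summable_psi_delta N)).1

theorem psi_total (N : ℕ) : rho N * ∑' j : ℕ, (psi N j : ℝ) / ((j : ℝ) * (j + 1)) = 1 := by
  have h1 := tendsto_sum_W N (fun j => (psi N j : ℝ)) (by simp [psi_zero]) (by
    refine (summable_psi_delta N).congr ?_
    intro t
    have : (psi N t : ℝ) ≤ psi N (t + 1) := psi_mono N (Nat.le_succ t)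
    rw [abs_of_nonneg (by linarith)])
  have h2 := (abel (fun j => (psi N j : ℝ)) (by simp [psi_zero]) (psi_mono N)
    (summable_psi_delta N)).2
  rw [h2] at h1
  have h3 : Tendsto (fun n : ℕ => (∑ v ∈ rgh N n, (psi N (n / v) : ℝ)) / n) atTop (𝓝 1) := by
    refine tendsto_const_nhds.congr' ?_
    filter_upwards [eventually_gt_atTop 0] with n hn
    have h4 : ∑ v ∈ rgh N n, (psi N (n / v) : ℝ) = n := by
      have := sum_smt N n
      exact_mod_cast this
    rw [h4, div_self]
    positivity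
  exact tendsto_nhds_unique h1 h3

theorem g_le_psi (N j : ℕ) : g N j ≤ psi N j := by
  unfold g psi
  rw [mx_le_iff]
  intro A h1 h2 _
  exact card_le_card_smt h1 h2

/-- The finite lower expression. -/
noncomputable def lo (N M : ℕ) : ℝ :=
  rho N * ∑ j ∈ Finset.range M, (g N j : ℝ) / ((j : ℝ) * (j + 1)) - 1 / N

/-- The finite upper expression. -/
noncomputable def hi (N M : ℕ) : ℝ :=
  1 - rho N * ∑ j ∈ Finset.range M, ((psi N j : ℝ) - g N j) / ((j : ℝ) * (j + 1))

theorem lo_le (N M : ℕ) : lo N M ≤ cc N - 1 / N := by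
  unfold lo cc
  apply sub_le_sub_right
  apply mul_le_mul_of_nonneg_left _ (rho_nonneg N)
  exact (summable_g N).sum_le_tsum _ (fun j _ => by positivity)

theorem cc_eq (N : ℕ) :
    cc N = 1 - rho N * ∑' j : ℕ, ((psi N j : ℝ) - g N j) / ((j : ℝ) * (j + 1)) := by
  have h : ∑' j : ℕ, ((psi N j : ℝ) - g N j) / ((j : ℝ) * (j + 1)) =
      ∑' j : ℕ, (psi N j : ℝ) / ((j : ℝ) * (j + 1)) - ∑' j : ℕ, (g N j : ℝ) / ((j : ℝ) * (j + 1)) := by
    rw [← (summable_psi N).tsum_sub (summable_g N)]
    apply tsum_congr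
    intro j
    rw [sub_div]
  rw [h, mul_sub, psi_total]
  unfold cc
  ring

theorem summable_diff (N : ℕ) :
    Summable (fun j : ℕ => ((psi N j : ℝ) - g N j) / ((j : ℝ) * (j + 1))) := by
  refine ((summable_psi N).sub (summable_g N)).congr ?_
  intro j
  rw [sub_div]

theorem le_hi (N M : ℕ) : cc N ≤ hi N M := by
  rw [cc_eq]
  unfold hi
  apply sub_le_sub_left
  apply mul_le_mul_of_nonneg_left _ (rho_nonneg N)
  apply (summable_diff N).sum_le_tsum _
  intro j _
  have : (g N j : ℝ) ≤ psi N j := by exact_mod_cast g_le_psi N j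
  apply div_nonneg (by linarith) (by positivity)

theorem tendsto_hi_sub_lo (N : ℕ) :
    Tendsto (fun M => hi N M - lo N M) atTop (𝓝 (1 / N)) := by
  have h1 := ((summable_diff N).hasSum.tendsto_sum_nat.const_mul (rho N)).const_sub 1
  have h2 := ((summable_g N).hasSum.tendsto_sum_nat.const_mul (rho N)).sub_const (1 / (N : ℝ))
  have h3 := h1.sub h2
  rw [← cc_eq] at h3
  have e : cc N - (rho N * ∑' j : ℕ, (g N j : ℝ) / ((j : ℝ) * (j + 1)) - 1 / N) = 1 / N := by
    unfold cc; ring
  rw [e] at h3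
  exact h3

/-- **The collected theorem.** -/
theorem main : ∃ c : ℝ, Tendsto (fun n : ℕ => (f n : ℝ) / n) atTop (𝓝 c) ∧
    0.67294 ≤ c ∧ c ≤ 0.673 ∧
    ∀ N : ℕ, 0 < N → c ≤ cc N ∧ cc N ≤ c + 1 / N ∧ (∀ M, lo N M ≤ c ∧ c ≤ hi N M) ∧
      Tendsto (fun M => hi N M - lo N M) atTop (𝓝 (1 / N)) := by
  obtain ⟨c, hc, hN⟩ := limit_exists
  refine ⟨c, hc, lower hc, ?_, ?_⟩
  · exact (hN 7 (by norm_num)).1.trans (cc_seven_le rho_seven)
  · intro N hN0
    obtain ⟨h1, h2⟩ := hN N hN0
    refine ⟨h1, h2, ?_, tendsto_hi_sub_lo N⟩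
    intro M
    constructor
    · have := lo_le N M
      linarith
    · exact h1.trans (le_hi N M)

end Pool.Agent.Y924.DV
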