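import Mathlib
import Pool.Agent.Y924.DV.Limit

/-!
Lower bounds for the density from finite exchange tables (primes 2, 3, 5).
-/

namespace Pool.Agent.Y924.DV

open Finset Filter Topology

/-- An entry of the table: for `lo ≤ j < hi` the set `{s : j/3 < s ≤ j}` of 5-smooth numbers is
changed by removing `Z` and adding `X`. -/
structure Ent where
  lo : ℕ
  hi : ℕ
  X : List ℕ
  Z : List ℕ

/-- Validity of an entry. -/
structure Ent.Valid (e : Ent) : Prop where
  lo_pos : 0 < e.lo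
  nodup : e.X.Nodup
  smooth : ∀ x ∈ e.X, x ∈ Nat.smoothNumbers 7
  hi7 : ∀ x ∈ e.X, e.hi ≤ 7 * x
  lo3 : ∀ x ∈ e.X, 3 * x ≤ e.lo
  mult : ∀ x ∈ e.X, ∀ m, 2 ≤ m → m ≤ 6 → ∀ k, 2 ≤ k → k ≤ 6 → m ≠ k →
    ¬ ((m * x ∈ e.X ∨ (m * x < e.hi ∧ e.lo < 3 * (m * x) ∧ m * x ∉ e.Z)) ∧
      (k * x ∈ e.X ∨ (k * x < e.hi ∧ e.lo < 3 * (k * x) ∧ k * x ∉ e.Z)))

open Classical in
/-- 5-smooth numbers in `(j/3, j]`. -/
noncomputable def DD (j : ℕ) : Finset ℕ := (smt 7 j).filter (fun s => j < 3 * s)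

theorem mem_DD {j s : ℕ} : s ∈ DD j ↔ s ∈ Nat.smoothNumbers 7 ∧ 1 ≤ s ∧ s ≤ j ∧ j < 3 * s := by
  classical
  simp only [DD, Finset.mem_filter, mem_smt]
  tauto

open Classical in
/-- The modified set. -/
noncomputable def Ent.modi (e : Ent) (j : ℕ) : Finset ℕ :=
  (DD j \ e.Z.toFinset) ∪ e.X.toFinset

/-- The gain of an entry. -/
def Ent.gain (e : Ent) : ℝ := (e.X.length : ℝ) - e.Z.length

theorem Ent.Valid.pos {e : Ent} (h : e.Valid) {x : ℕ} (hx : x ∈ e.X) : 0 < x :=
  Nat.pos_of_ne_zero (Nat.ne_zero_of_mem_smoothNumbers (h.smooth x hx))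

theorem Ent.Valid.mem_modi {e : Ent} (h : e.Valid) {j : ℕ} (h1 : e.lo ≤ j) (h2 : j < e.hi)
    {s : ℕ} (hs : s ∈ e.modi j) : s ∈ Nat.smoothNumbers 7 ∧ s ≤ j ∧ j < s * 7 := by
  classical
  unfold Ent.modi at hs
  rw [Finset.mem_union, Finset.mem_sdiff, mem_DD, List.mem_toFinset, List.mem_toFinset] at hs
  rcases hs with ⟨⟨h3, h4, h5, h6⟩, _⟩ | hs
  · exact ⟨h3, h5, by omega⟩
  · have := h.hi7 s hs
    have := h.lo3 s hs
    exact ⟨h.smooth s hs, by omega, by omega⟩

theorem Ent.Valid.card_modi {e : Ent} (h : e.Valid) {j : ℕ} (h1 : e.lo ≤ j) :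
    ((DD j).card : ℝ) + e.gain ≤ ((e.modi j).card : ℝ) := by
  classical
  have hd : Disjoint (DD j \ e.Z.toFinset) e.X.toFinset := by
    rw [Finset.disjoint_left]
    intro s hs hs'
    rw [Finset.mem_sdiff, mem_DD] at hs
    rw [List.mem_toFinset] at hs'
    have := h.lo3 s hs'
    omega
  unfold Ent.modi
  rw [Finset.card_union_of_disjoint hd, List.toFinset_card_of_nodup h.nodup]
  have h2 := Finset.le_card_sdiff e.Z.toFinset (DD j)
  have h3 : e.Z.toFinset.card ≤ e.Z.length := List.toFinset_card_le _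
  have h4 : (DD j).card ≤ (DD j \ e.Z.toFinset).card + e.Z.length := by omega
  have h5 : ((DD j).card : ℝ) ≤ (DD j \ e.Z.toFinset).card + e.Z.length := by exact_mod_cast h4
  unfold Ent.gain
  push_cast
  linarith

theorem adm_DD (j : ℕ) : Admissible (DD j) := by
  intro a ha b hb c hc hab hac hbc h1 h2
  rw [mem_DD] at ha hb hc
  obtain ⟨m, rfl⟩ := h1
  obtain ⟨k, rfl⟩ := h2
  have hm : m < 3 := by
    by_contra hh
    have : a * 3 ≤ a * m := Nat.mul_le_mul_left _ (by omega)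
    omega
  have hk : k < 3 := by
    by_contra hh
    have : a * 3 ≤ a * k := Nat.mul_le_mul_left _ (by omega)
    omega
  interval_cases m <;> interval_cases k <;> omega

theorem Ent.Valid.adm_modi {e : Ent} (h : e.Valid) {j : ℕ} (h1 : e.lo ≤ j) (h2 : j < e.hi) :
    Admissible (e.modi j) := by
  classical
  intro a ha b hb c hc hab hac hbc hd1 hd2
  have hbj := h.mem_modi h1 h2 hb
  have hcj := h.mem_modi h1 h2 hc
  have ha' := ha
  unfold Ent.modi at ha' hb hc
  rw [Finset.mem_union, Finset.mem_sdiff, mem_DD, List.mem_toFinset, List.mem_toFinset] at ha' hb hc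
  obtain ⟨m, rfl⟩ := hd1
  obtain ⟨k, rfl⟩ := hd2
  rcases ha' with ⟨⟨a1, a2, a3, a4⟩, _⟩ | hax
  · have hm : m < 3 := by
      by_contra hh
      have : a * 3 ≤ a * m := Nat.mul_le_mul_left _ (by omega)
      omega
    have hk : k < 3 := by
      by_contra hh
      have : a * 3 ≤ a * k := Nat.mul_le_mul_left _ (by omega)
      omega
    have hb0 := Nat.ne_zero_of_mem_smoothNumbers hbj.1
    have hc0 := Nat.ne_zero_of_mem_smoothNumbers hcj.1
    interval_cases m <;> interval_cases k <;> omega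
  · have hap := h.pos hax
    have h7 := h.hi7 a hax
    have hm : m < 7 := by
      by_contra hh
      have : a * 7 ≤ a * m := Nat.mul_le_mul_left _ (by omega)
      omega
    have hk : k < 7 := by
      by_contra hh
      have : a * 7 ≤ a * k := Nat.mul_le_mul_left _ (by omega)
      omega
    have hm2 : 2 ≤ m := by
      rcases Nat.lt_or_ge m 2 with hh | hh
      · exfalso
        have hb0 := Nat.ne_zero_of_mem_smoothNumbers hbj.1
        interval_cases m
        · simp at hb0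
        · simp at hab
      · exact hh
    have hk2 : 2 ≤ k := by
      rcases Nat.lt_or_ge k 2 with hh | hh
      · exfalso
        have hc0 := Nat.ne_zero_of_mem_smoothNumbers hcj.1
        interval_cases k
        · simp at hc0
        · simp at hac
      · exact hh
    have hmk : m ≠ k := by rintro rfl; exact hbc rfl
    apply h.mult a hax m hm2 (by omega) k hk2 (by omega) hmk
    rw [mul_comm m a, mul_comm k a]
    constructor
    · rcases hb with ⟨⟨_, _, _, b4⟩, b5⟩ | hb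
      · right
        refine ⟨by omega, by omega, b5⟩
      · left; exact hb
    · rcases hc with ⟨⟨_, _, _, c4⟩, c5⟩ | hc
      · right
        refine ⟨by omega, by omega, c5⟩
      · left; exact hc

/-- The set attached to a table. -/
noncomputable def SL : List Ent → ℕ → Finset ℕ
  | [], j => DD j
  | e :: L, j => if e.lo ≤ j ∧ j < e.hi then e.modi j else SL L j

/-- The gain attached to a table. -/
noncomputable def WL : List Ent → ℕ → ℝ
  | [], _ => 0
  | e :: L, j => if e.lo ≤ j ∧ j < e.hi then e.gain else WL L j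

theorem SL_spec {L : List Ent} (hL : ∀ e ∈ L, e.Valid) (j : ℕ) :
    (∀ s ∈ SL L j, s ∈ Nat.smoothNumbers 7 ∧ s ≤ j ∧ j < s * 7) ∧ Admissible (SL L j) ∧
      ((DD j).card : ℝ) + WL L j ≤ ((SL L j).card : ℝ) := by
  induction L with
  | nil =>
    refine ⟨?_, adm_DD j, by simp [WL, SL]⟩
    intro s hs
    rw [SL, mem_DD] at hs
    exact ⟨hs.1, hs.2.2.1, by omega⟩
  | cons e L ih =>
    have he := hL e (by simp)
    have ih' := ih (fun e' he' => hL e' (by simp [he']))
    by_cases h : e.lo ≤ j ∧ j < e.hi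
    · simp only [SL, WL, if_pos h]
      exact ⟨fun s hs => he.mem_modi h.1 h.2 hs, he.adm_modi h.1 h.2, he.card_modi h.1⟩
    · simp only [SL, WL, if_neg h]
      exact ih'

/-- The ranges of a table follow each other. -/
def Chain : List Ent → ℕ → Prop
  | [], _ => True
  | e :: L, b => b ≤ e.lo ∧ e.lo < e.hi ∧ Chain L e.hi

theorem WL_zero {L : List Ent} {b : ℕ} (h : Chain L b) {j : ℕ} (hj : j < b) : WL L j = 0 := by
  induction L generalizing b with
  | nil => rfl
  | cons e L ih =>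
    obtain ⟨h1, h2, h3⟩ := h
    have : ¬ (e.lo ≤ j ∧ j < e.hi) := by omega
    simp only [WL, if_neg this]
    exact ih h3 (by omega)

/-- The total weighted gain. -/
noncomputable def sig : List Ent → ℝ
  | [] => 0
  | e :: L => e.gain * (1 / (e.lo : ℝ) - 1 / (e.hi : ℝ)) + sig L

theorem tendsto_range (N lo hi : ℕ) (h0 : 0 < lo) (h1 : lo < hi) :
    Tendsto (fun n : ℕ => (∑ v ∈ rgh N n, (if lo ≤ n / v ∧ n / v < hi then (1 : ℝ) else 0)) / n)
      atTop (𝓝 (rho N * (1 / (lo : ℝ) - 1 / (hi : ℝ)))) := by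
  classical
  have e : ∀ n : ℕ, (∑ v ∈ rgh N n, (if lo ≤ n / v ∧ n / v < hi then (1 : ℝ) else 0)) / n =
      ((rgh N (n / lo)).card : ℝ) / n - ((rgh N (n / hi)).card : ℝ) / n := by
    intro n
    rw [← sub_div]
    congr 1
    rw [← Finset.sum_filter, Finset.sum_const, nsmul_eq_mul, mul_one]
    have hsub : rgh N (n / hi) ⊆ rgh N (n / lo) := by
      intro v hv
      rw [mem_rgh] at hv ⊢
      refine ⟨hv.1, hv.2.1.trans (Nat.div_le_div_left h1.le h0), hv.2.2⟩
    have hset : (rgh N n).filter (fun v => lo ≤ n / v ∧ n / v < hi) =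
        rgh N (n / lo) \ rgh N (n / hi) := by
      ext v
      simp only [Finset.mem_filter, Finset.mem_sdiff, mem_rgh]
      constructor
      · rintro ⟨⟨v1, v2, v3⟩, v4, v5⟩
        rw [Nat.le_div_iff_mul_le (by omega)] at v4
        rw [Nat.div_lt_iff_lt_mul (by omega)] at v5
        refine ⟨⟨v1, ?_, v3⟩, ?_⟩
        · rw [Nat.le_div_iff_mul_le h0, mul_comm]; exact v4
        · rintro ⟨_, w2, _⟩
          rw [Nat.le_div_iff_mul_le (by omega)] at w2
          rw [mul_comm] at w2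
          omega
      · rintro ⟨⟨v1, v2, v3⟩, v4⟩
        rw [Nat.le_div_iff_mul_le h0] at v2
        have v5 : ¬ v ≤ n / hi := fun hh => v4 ⟨v1, hh, v3⟩
        rw [Nat.le_div_iff_mul_le (by omega)] at v5
        refine ⟨⟨v1, by nlinarith, v3⟩, ?_, ?_⟩
        · rw [Nat.le_div_iff_mul_le (by omega), mul_comm]; exact v2
        · rw [Nat.div_lt_iff_lt_mul (by omega), mul_comm]; omega
    rw [hset, Finset.card_sdiff_of_subset hsub, Nat.cast_sub (Finset.card_le_card hsub)]
  simp_rw [e]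
  have h2 := (tendsto_rgh N lo h0).sub (tendsto_rgh N hi (by omega))
  have e2 : rho N * (1 / (lo : ℝ) - 1 / (hi : ℝ)) = rho N / lo - rho N / hi := by ring
  rw [e2]
  exact h2

theorem tendsto_WL (N : ℕ) {L : List Ent} (hL : ∀ e ∈ L, e.Valid) {b : ℕ} (h : Chain L b) :
    Tendsto (fun n : ℕ => (∑ v ∈ rgh N n, WL L (n / v)) / n) atTop (𝓝 (rho N * sig L)) := by
  induction L generalizing b with
  | nil => simp [WL, sig]
  | cons e L ih =>
    obtain ⟨h1, h2, h3⟩ := h
    have ih' := ih (fun e' he' => hL e' (by simp [he'])) h3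
    have hw : ∀ j, WL (e :: L) j = e.gain * (if e.lo ≤ j ∧ j < e.hi then (1 : ℝ) else 0) +
        WL L j := by
      intro j
      by_cases hj : e.lo ≤ j ∧ j < e.hi
      · simp only [WL, if_pos hj]
        rw [WL_zero h3 hj.2]
        ring
      · simp only [WL, if_neg hj]
        ring
    have e1 : ∀ n : ℕ, (∑ v ∈ rgh N n, WL (e :: L) (n / v)) / n =
        e.gain * ((∑ v ∈ rgh N n, (if e.lo ≤ n / v ∧ n / v < e.hi then (1 : ℝ) else 0)) / n) +
          (∑ v ∈ rgh N n, WL L (n / v)) / n := by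
      intro n
      simp_rw [hw]
      rw [Finset.sum_add_distrib, ← Finset.mul_sum]
      ring
    simp_rw [e1]
    have h4 := ((tendsto_range N e.lo e.hi (hL e (by simp)).lo_pos h2).const_mul e.gain).add ih'
    convert h4 using 2
    simp only [sig]
    ring

theorem card_DD (j : ℕ) : (DD j).card + (smt 7 (j / 3)).card = (smt 7 j).card := by
  classical
  rw [← Finset.card_filter_add_card_filter_not (s := smt 7 j) (fun s => j < 3 * s)]
  congr 1
  apply congrArg
  ext s
  simp only [Finset.mem_filter, mem_smt]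
  constructor
  · rintro ⟨h1, h2, h3⟩
    rw [Nat.le_div_iff_mul_le (by norm_num)] at h2
    exact ⟨⟨h1, by omega, h3⟩, by omega⟩
  · rintro ⟨⟨h1, h2, h3⟩, h4⟩
    rw [Nat.le_div_iff_mul_le (by norm_num)]
    exact ⟨h1, by omega, h3⟩

theorem sum_DD (n : ℕ) : ∑ v ∈ rgh 7 n, (DD (n / v)).card + n / 3 = n := by
  have h1 := sum_smt 7 n
  have h2 := sum_smt_div 7 n 3
  rw [← h2]
  conv_rhs => rw [← h1]
  rw [← Finset.sum_add_distrib]
  apply Finset.sum_congr rfl
  intro v _
  exact card_DD (n / v)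

/-- **Lower bound from a table.** -/
theorem le_limit {L : List Ent} (hL : ∀ e ∈ L, e.Valid) {b : ℕ} (h : Chain L b) {c : ℝ}
    (hc : Tendsto (fun n : ℕ => (f n : ℝ) / n) atTop (𝓝 c)) :
    2 / 3 + rho 7 * sig L ≤ c := by
  have h1 : ∀ n : ℕ, 0 < n → 2 / 3 + (∑ v ∈ rgh 7 n, WL L (n / v)) / n ≤ (f n : ℝ) / n := by
    intro n hn
    have hn' : (0 : ℝ) < n := by exact_mod_cast hn
    have h2 := le_f 7 n (SL L) (fun j s hs => (SL_spec hL j).1 s hs) (fun j => (SL_spec hL j).2.1)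
    have h2' : (∑ v ∈ rgh 7 n, ((SL L (n / v)).card : ℝ)) ≤ f n := by exact_mod_cast h2
    have h3 : ∑ v ∈ rgh 7 n, (((DD (n / v)).card : ℝ) + WL L (n / v)) ≤
        ∑ v ∈ rgh 7 n, ((SL L (n / v)).card : ℝ) :=
      Finset.sum_le_sum (fun v _ => (SL_spec hL (n / v)).2.2)
    rw [Finset.sum_add_distrib] at h3
    have h4 : (∑ v ∈ rgh 7 n, ((DD (n / v)).card : ℝ)) + ((n / 3 : ℕ) : ℝ) = n := by
      exact_mod_cast sum_DD n
    have h5 : ((n / 3 : ℕ) : ℝ) ≤ n / 3 := by
      have := @Nat.cast_div_le ℝ _ _ _ n 3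
      simpa using this
    rw [le_div_iff₀ hn', add_mul, div_mul_cancel₀ _ hn'.ne']
    linarith
  have h6 := (tendsto_WL 7 hL h).const_add (2 / 3)
  refine le_of_tendsto_of_tendsto h6 hc ?_
  filter_upwards [eventually_gt_atTop 0] with n hn
  exact h1 n hn

/-! ### Boolean check and scaling -/

/-- Is `m * x` possibly in the modified set? -/
def Ent.poss (e : Ent) (y : ℕ) : Bool :=
  e.X.contains y || (Nat.blt y e.hi && Nat.blt e.lo (3 * y) && !(e.Z.contains y))

/-- Check of one element. -/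
def Ent.okX (e : Ent) (x : ℕ) : Bool :=
  Nat.beq (30 ^ 16 % x) 0 && Nat.ble 1 x && Nat.ble e.hi (7 * x) && Nat.ble (3 * x) e.lo &&
    Nat.ble (([2, 3, 4, 5, 6].filter (fun m => e.poss (m * x))).length) 1

/-- Strictly increasing list. -/
def incr : List ℕ → Bool
  | [] => true
  | [_] => true
  | a :: b :: l => Nat.blt a b && incr (b :: l)

/-- Check of an entry. -/
def Ent.ok (e : Ent) : Bool := Nat.ble 1 e.lo && incr e.X && e.X.all (fun x => e.okX x)

theorem incr_pairwise : ∀ l : List ℕ, incr l = true → l.Pairwise (· < ·)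
  | [], _ => List.Pairwise.nil
  | [a], _ => List.pairwise_singleton _ _
  | a :: b :: l, h => by
    rw [incr, Bool.and_eq_true] at h
    have ih := incr_pairwise (b :: l) h.2
    have hab : a < b := by simpa [Nat.blt_eq] using h.1
    rw [List.pairwise_cons]
    refine ⟨?_, ih⟩
    intro c hc
    rw [List.mem_cons] at hc
    rcases hc with rfl | hc
    · exact hab
    · exact hab.trans ((List.pairwise_cons.mp ih).1 c hc)

theorem smooth_of_mod {x : ℕ} (h : 30 ^ 16 % x = 0) (hx : 1 ≤ x) : x ∈ Nat.smoothNumbers 7 := by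
  rw [Nat.mem_smoothNumbers']
  intro p hp hpx
  have h1 : p ∣ 30 ^ 16 := hpx.trans (Nat.dvd_of_mod_eq_zero h)
  have h2 : p ∣ 30 := hp.dvd_of_dvd_pow h1
  have h3 : p ≤ 30 := Nat.le_of_dvd (by norm_num) h2
  interval_cases p <;> first | omega | (exfalso; revert hp; decide)

theorem Ent.ok_valid {e : Ent} (h : e.ok = true) : e.Valid := by
  rw [Ent.ok, Bool.and_eq_true, Bool.and_eq_true, List.all_eq_true] at h
  obtain ⟨⟨h1, h2⟩, h3⟩ := h
  have hp := incr_pairwise _ h2
  have key : ∀ x ∈ e.X, (30 ^ 16 % x = 0 ∧ 1 ≤ x ∧ e.hi ≤ 7 * x ∧ 3 * x ≤ e.lo) ∧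
      ([2, 3, 4, 5, 6].filter (fun m => e.poss (m * x))).length ≤ 1 := by
    intro x hx
    have := h3 x hx
    rw [Ent.okX] at this
    simp only [Bool.and_eq_true, Nat.beq_eq, Nat.ble_eq] at this
    tauto
  refine ⟨by have := Nat.le_of_ble_eq_true h1; omega, ?_, ?_, ?_, ?_, ?_⟩
  · exact hp.imp (fun h => h.ne)
  · intro x hx
    exact smooth_of_mod (key x hx).1.1 (key x hx).1.2.1
  · intro x hx
    exact (key x hx).1.2.2.1
  · intro x hx
    exact (key x hx).1.2.2.2
  · intro x hx m hm2 hm6 k hk2 hk6 hmk hcon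
    have hposs : ∀ y, (y ∈ e.X ∨ (y < e.hi ∧ e.lo < 3 * y ∧ y ∉ e.Z)) → e.poss y = true := by
      intro y hy
      rw [Ent.poss]
      simp only [Bool.or_eq_true, Bool.and_eq_true, List.contains_eq_mem, decide_eq_true_eq,
        Nat.blt_eq, Bool.not_eq_true', decide_eq_false_iff_not]
      tauto
    have a1 := hposs _ hcon.1
    have a2 := hposs _ hcon.2
    have hlen := (key x hx).2
    have m1 : m ∈ [2, 3, 4, 5, 6].filter (fun m => e.poss (m * x)) := by
      rw [List.mem_filter]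
      refine ⟨?_, a1⟩
      simp; omega
    have m2 : k ∈ [2, 3, 4, 5, 6].filter (fun m => e.poss (m * x)) := by
      rw [List.mem_filter]
      refine ⟨?_, a2⟩
      simp; omega
    rcases hl : [2, 3, 4, 5, 6].filter (fun m => e.poss (m * x)) with _ | ⟨y, _ | ⟨z, l⟩⟩
    · rw [hl] at m1; simp at m1
    · rw [hl] at m1 m2
      simp at m1 m2
      exact hmk (m1.trans m2.symm)
    · rw [hl] at hlen
      simp at hlen

/-- Multiply an entry by `2 ^ i`. -/
def Ent.scale (e : Ent) (i : ℕ) : Ent :=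
  ⟨2 ^ i * e.lo, 2 ^ i * e.hi, e.X.map (2 ^ i * ·), e.Z.map (2 ^ i * ·)⟩

theorem Ent.Valid.scale {e : Ent} (h : e.Valid) (i : ℕ) : (e.scale i).Valid := by
  have h2 : 0 < 2 ^ i := by positivity
  have hinj : Function.Injective (fun x : ℕ => 2 ^ i * x) := fun a b hab =>
    Nat.eq_of_mul_eq_mul_left h2 hab
  have mem : ∀ (l : List ℕ) (y m : ℕ), m * (2 ^ i * y) ∈ l.map (2 ^ i * ·) ↔ m * y ∈ l := by
    intro l y m
    rw [show m * (2 ^ i * y) = 2 ^ i * (m * y) by ring]
    exact List.mem_map_of_injective hinj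
  refine ⟨?_, ?_, ?_, ?_, ?_, ?_⟩
  · exact Nat.mul_pos h2 h.lo_pos
  · exact h.nodup.map hinj
  · intro x hx
    simp only [Ent.scale, List.mem_map] at hx
    obtain ⟨y, hy, rfl⟩ := hx
    apply Nat.mul_mem_smoothNumbers _ (h.smooth y hy)
    rw [Nat.mem_smoothNumbers']
    intro p hp hpd
    have := Nat.le_of_dvd (by norm_num) (hp.dvd_of_dvd_pow hpd)
    omega
  · intro x hx
    simp only [Ent.scale, List.mem_map] at hx ⊢
    obtain ⟨y, hy, rfl⟩ := hx
    have := h.hi7 y hy
    calc 2 ^ i * e.hi ≤ 2 ^ i * (7 * y) := Nat.mul_le_mul_left _ this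
      _ = 7 * (2 ^ i * y) := by ring
  · intro x hx
    simp only [Ent.scale, List.mem_map] at hx ⊢
    obtain ⟨y, hy, rfl⟩ := hx
    have := h.lo3 y hy
    calc 3 * (2 ^ i * y) = 2 ^ i * (3 * y) := by ring
      _ ≤ 2 ^ i * e.lo := Nat.mul_le_mul_left _ this
  · intro x hx m hm2 hm6 k hk2 hk6 hmk hcon
    simp only [Ent.scale, List.mem_map] at hx
    obtain ⟨y, hy, rfl⟩ := hx
    apply h.mult y hy m hm2 hm6 k hk2 hk6 hmk
    have tr : ∀ q, (q * (2 ^ i * y) ∈ (e.scale i).X ∨ (q * (2 ^ i * y) < (e.scale i).hi ∧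
        (e.scale i).lo < 3 * (q * (2 ^ i * y)) ∧ q * (2 ^ i * y) ∉ (e.scale i).Z)) →
        (q * y ∈ e.X ∨ (q * y < e.hi ∧ e.lo < 3 * (q * y) ∧ q * y ∉ e.Z)) := by
      intro q hq
      simp only [Ent.scale, mem] at hq
      rcases hq with hq | ⟨q1, q2, q3⟩
      · exact Or.inl hq
      · right
        refine ⟨?_, ?_, q3⟩
        · have : 2 ^ i * (q * y) < 2 ^ i * e.hi := by
            calc 2 ^ i * (q * y) = q * (2 ^ i * y) := by ring
              _ < _ := q1
          exact Nat.lt_of_mul_lt_mul_left this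
        · have : 2 ^ i * e.lo < 2 ^ i * (3 * (q * y)) := by
            calc 2 ^ i * e.lo < 3 * (q * (2 ^ i * y)) := q2
              _ = 2 ^ i * (3 * (q * y)) := by ring
          exact Nat.lt_of_mul_lt_mul_left this
    exact ⟨tr m hcon.1, tr k hcon.2⟩

end Pool.Agent.Y924.DV
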